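import Mathlib

/-!
# Primes `⌊(α n)^n⌋ + k` and `⌊n^(α n)⌋ + k` for almost all `α` (MP_a70bdc_nt): statements of the parts

The functions are `f_n(x) = exp (s_n x + c_n)`. For `x = log α`, `s_n = n`, `c_n = n log n` this is `(α n)^n`; for
`x = α`, `s_n = n log n`, `c_n = 0` it is `n^(α n)`.
-/

set_option autoImplicit false

open MeasureTheory Filter Topology Finset
open scoped Real

namespace Pool.Agent.Helper2.NNP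

/-- the logarithm of the `n`-th function -/
def Lg (s c : ℕ → ℝ) (n : ℕ) (x : ℝ) : ℝ := s n * x + c n

/-- the `n`-th function -/
noncomputable def fn (s c : ℕ → ℝ) (n : ℕ) (x : ℝ) : ℝ := Real.exp (Lg s c n x)

/-- the parameters for which `⌊f_n(x)⌋ + k` is prime -/
def EE (s c : ℕ → ℝ) (k : ℤ) (n : ℕ) : Set ℝ := {x | (⌊fn s c n x⌋ + k).toNat.Prime}

/-- admissible data on the interval `[A,B]` -/
structure Adm (s c : ℕ → ℝ) (A B : ℝ) : Prop where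
  lt : A < B
  ev : ∃ n₀ : ℕ, ∀ n, n₀ ≤ n → 1 ≤ s n ∧ s n + 1 ≤ s (n + 1) ∧ Lg s c n A ≤ Lg s c (n + 1) A ∧
    s n * (B - A) ≤ Lg s c n A
  top : Tendsto (fun n => Lg s c n A) atTop atTop

/-- Fejér's kernel to the modulus `D` -/
noncomputable def Kn (D : ℕ) (x : ℝ) : ℝ :=
  ‖∑ h ∈ range D, Complex.exp (((2 * π * h * x / D : ℝ) : ℂ) * Complex.I)‖ ^ 2 / (D : ℝ) ^ 2

/-- the majorant -/
noncomputable def SS (ρ : ℕ → ℝ) (D : ℕ) (x : ℝ) : ℝ :=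
  ∑ d ∈ Icc 1 D, ∑ e ∈ Icc 1 D, ρ d * ρ e * Kn (Nat.lcm d e) x

/-- SEL: Selberg's weights -/
def S_SEL : Prop := ∃ C : ℝ, 0 < C ∧ ∀ D : ℕ, 2 ≤ D → ∃ ρ : ℕ → ℝ, ρ 1 = 1 ∧ (∀ d, |ρ d| ≤ 1) ∧
  0 ≤ ∑ d ∈ Icc 1 D, ∑ e ∈ Icc 1 D, ρ d * ρ e / (Nat.lcm d e : ℝ) ∧
  ∑ d ∈ Icc 1 D, ∑ e ∈ Icc 1 D, ρ d * ρ e / (Nat.lcm d e : ℝ) ≤ C / Real.log D

/-- MAJ: the majorant is nonnegative, and at least `2/5` near integers without divisors in `[2,D]` -/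
def S_MAJ : Prop := ∀ (D : ℕ) (ρ : ℕ → ℝ), 1 ≤ D → ρ 1 = 1 → (∀ x, 0 ≤ SS ρ D x) ∧
  ∀ (x : ℝ) (P : ℤ), |(P : ℝ) - x| ≤ 1 / 2 → (∀ d ∈ Icc 2 D, ¬ (d : ℤ) ∣ P) → 2 / 5 ≤ SS ρ D x

/-- INT1: one exponential -/
def S_INT1 : Prop := ∃ C : ℝ, 0 < C ∧ ∀ A B S c a : ℝ, A < B → 1 ≤ S → a ≠ 0 →
  ‖∫ x in A..B, Complex.exp (((2 * π * (a * Real.exp (S * x + c)) : ℝ) : ℂ) * Complex.I)‖ ≤
    C / (|a| * Real.exp (S * A + c))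

/-- INT2: two exponentials -/
def S_INT2 : Prop := ∀ A B : ℝ, A < B → ∃ C : ℝ, 0 < C ∧ ∀ S T c d a b : ℝ, 1 ≤ S → S + 1 ≤ T → b ≠ 0 →
  ‖∫ x in A..B, Complex.exp (((2 * π * (a * Real.exp (S * x + c) + b * Real.exp (T * x + d)) : ℝ) : ℂ) *
      Complex.I)‖ ≤ C / √(|b| * Real.exp (T * A + d))

/-- UP1: upper bound of the measure -/
def S_UP1 : Prop := ∃ C : ℝ, 0 < C ∧ ∀ (s c : ℕ → ℝ) (A B : ℝ) (k : ℤ), Adm s c A B →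
  ∃ n₀ : ℕ, ∀ n, n₀ ≤ n → volume.real (EE s c k n ∩ Set.Icc A B) ≤ C * (B - A) / Lg s c n A

/-- UP2: upper bound of the measure of the intersections -/
def S_UP2 : Prop := ∃ C : ℝ, 0 < C ∧ ∀ (s c : ℕ → ℝ) (A B : ℝ) (k : ℤ), Adm s c A B →
  ∃ n₀ : ℕ, ∀ n m, n₀ ≤ n → n < m → volume.real (EE s c k n ∩ EE s c k m ∩ Set.Icc A B) ≤
    C * (B - A) / (Lg s c n A * Lg s c m A)

/-- LOW: lower bound of the measure -/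
def S_LOW : Prop := ∃ C : ℝ, 0 < C ∧ ∀ (s c : ℕ → ℝ) (A B : ℝ) (k : ℤ), Adm s c A B →
  ∃ n₀ : ℕ, ∀ n, n₀ ≤ n → C * (B - A) / Lg s c n A ≤ volume.real (EE s c k n ∩ Set.Icc A B)

/-- MEA: measurability -/
def S_MEA : Prop := ∀ (s c : ℕ → ℝ) (k : ℤ) (n : ℕ), MeasurableSet (EE s c k n)

/-- KS: the lemma of Borel and Cantelli for pairwise quasi-independent sets, with Lebesgue's density theorem.
`w u r n` is the weight of the `n`-th set on the interval `[u - r, u + r]`. -/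
def S_KS : Prop := ∀ (E : ℕ → Set ℝ) (a : ℝ) (w : ℝ → ℝ → ℕ → ℝ) (c C : ℝ), 0 < c → 0 < C →
  (∀ n, MeasurableSet (E n)) →
  (∀ u : ℝ, a < u → ∃ r₀ : ℝ, 0 < r₀ ∧ ∀ r : ℝ, 0 < r → r < r₀ → ¬ Summable (w u r) ∧ ∃ n₀ : ℕ,
    (∀ n, n₀ ≤ n → 0 ≤ w u r n ∧ c * (2 * r) * w u r n ≤ volume.real (E n ∩ Set.Icc (u - r) (u + r)) ∧
      volume.real (E n ∩ Set.Icc (u - r) (u + r)) ≤ C * (2 * r) * w u r n) ∧
    ∀ n m, n₀ ≤ n → n < m → volume.real (E n ∩ E m ∩ Set.Icc (u - r) (u + r)) ≤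
      C * (2 * r) * (w u r n * w u r m)) →
  ∀ᵐ x : ℝ, a < x → ∃ᶠ n in atTop, x ∈ E n

/-- FAM: the two families are admissible on short intervals, and the series diverge -/
def S_FAM : Prop :=
  (∀ u : ℝ, ∃ r₀ : ℝ, 0 < r₀ ∧ ∀ r : ℝ, 0 < r → r < r₀ →
    Adm (fun n => n) (fun n => n * Real.log n) (u - r) (u + r) ∧
    ¬ Summable (fun n : ℕ => 1 / Lg (fun n => n) (fun n => n * Real.log n) n (u - r))) ∧
  (∀ u : ℝ, 0 < u → ∃ r₀ : ℝ, 0 < r₀ ∧ ∀ r : ℝ, 0 < r → r < r₀ →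
    Adm (fun n => n * Real.log n) (fun _ => 0) (u - r) (u + r) ∧
    ¬ Summable (fun n : ℕ => 1 / Lg (fun n => n * Real.log n) (fun _ => 0) n (u - r)))

/-- TRA: transfer from the general family to the two special ones -/
def S_TRA : Prop :=
  (∀ k : ℤ, ∀ᵐ x : ℝ, ∃ᶠ n in atTop, x ∈ EE (fun n => n) (fun n => n * Real.log n) k n) →
  (∀ k : ℤ, ∀ᵐ x : ℝ, 0 < x → ∃ᶠ n in atTop, x ∈ EE (fun n => n * Real.log n) (fun _ => 0) k n) →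
  (∀ᵐ α : ℝ, 0 < α → ∀ k : ℤ, {n : ℕ | (⌊(α * n) ^ n⌋ + k).toNat.Prime}.Infinite) ∧
  (∀ᵐ α : ℝ, 0 < α → ∀ k : ℤ, {n : ℕ | (⌊(n : ℝ) ^ (α * n)⌋ + k).toNat.Prime}.Infinite)

end Pool.Agent.Helper2.NNP
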