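import Pool.Agent.Helper2.NNP.Up3
import Pool.Agent.Helper80.NNP.SEL
import Pool.Agent.Helper4.NNP.MAJ
import Pool.Agent.Helper98.NNP.INT
import Pool.Agent.Helper40W.NNP.LOW
import Pool.Agent.Helper61A.NNP.KS
import Pool.Agent.H89B.NNP.Fam

/-!
# The zero-one law
-/

set_option autoImplicit false

open MeasureTheory Filter Topology Finset
open scoped Real

namespace Pool.Agent.Helper2.NNP

lemma up1 : S_UP1 := t_UP1 Helper80.NNP.t_SEL Helper4.NNP.t_MAJ Helper98.NNP.t_INT1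

lemma up2 : S_UP2 := t_UP2 Helper80.NNP.t_SEL Helper4.NNP.t_MAJ Helper98.NNP.t_INT1 Helper98.NNP.t_INT2

/-- the weights `1 / (n log n)` restricted to `S` -/
noncomputable def wt (S : Set ℕ) (n : ℕ) : ℝ := S.indicator (fun n : ℕ => 1 / ((n : ℝ) * Real.log n)) n

/-- the data are admissible around all `u > a`, and the logarithms have the size of `n log n` -/
def Loc (s c : ℕ → ℝ) (a : ℝ) : Prop := ∀ u : ℝ, a < u → ∃ r₀ : ℝ, 0 < r₀ ∧ ∀ r : ℝ, 0 < r → r < r₀ →
  Adm s c (u - r) (u + r) ∧ ∃ c₁ c₂ : ℝ, 0 < c₁ ∧ 0 < c₂ ∧ ∀ᶠ n : ℕ in atTop,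
    c₁ * (1 / ((n : ℝ) * Real.log n)) ≤ 1 / Lg s c n (u - r) ∧
    1 / Lg s c n (u - r) ≤ c₂ * (1 / ((n : ℝ) * Real.log n))

lemma wt_nonneg (S : Set ℕ) (n : ℕ) : 0 ≤ wt S n := by
  unfold wt
  by_cases h : n ∈ S
  · rw [Set.indicator_of_mem h]
    have : 0 ≤ Real.log n := Real.log_natCast_nonneg n
    positivity
  · rw [Set.indicator_of_notMem h]

lemma meas_sub (S : Set ℕ) (s c : ℕ → ℝ) (k : ℤ) (n : ℕ) : MeasurableSet {x | n ∈ S ∧ x ∈ EE s c k n} := by
  by_cases h : n ∈ S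
  · simp only [h, true_and]
    exact H89B.NNP.t_MEA s c k n
  · simp [h]

lemma div_part {s c : ℕ → ℝ} {a : ℝ} (hL : Loc s c a) (k : ℤ) (S : Set ℕ) (hS : ¬ Summable (wt S)) :
    ∀ᵐ x : ℝ, a < x → {n : ℕ | n ∈ S ∧ x ∈ EE s c k n}.Infinite := by
  obtain ⟨C1, hC1, h1⟩ := up1
  obtain ⟨C2, hC2, h2⟩ := up2
  obtain ⟨C3, hC3, h3⟩ := Helper40W.NNP.t_LOW
  have key := Helper61A.NNP.t_KS (fun n => {x | n ∈ S ∧ x ∈ EE s c k n}) a
    (fun u r n => S.indicator (fun n : ℕ => 1 / Lg s c n (u - r)) n) C3 (max C1 C2) hC3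
    (lt_max_of_lt_left hC1) (meas_sub S s c k) ?_
  · filter_upwards [key] with x hx hax
    have := hx hax
    rw [Nat.frequently_atTop_iff_infinite] at this
    exact this
  · intro u hu
    obtain ⟨r₀, hr₀, hr⟩ := hL u hu
    refine ⟨r₀, hr₀, fun r hr0 hr1 => ?_⟩
    obtain ⟨hadm, c₁, c₂, hc₁, hc₂, hcmp⟩ := hr r hr0 hr1
    have h2r : (u + r) - (u - r) = 2 * r := by ring
    constructor
    · intro hsum
      apply hS
      refine summable_of_isBigO_nat hsum ?_
      refine Asymptotics.IsBigO.of_bound c₁⁻¹ ?_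
      filter_upwards [hcmp, hadm.top.eventually_ge_atTop 1] with n hn hn1
      unfold wt
      by_cases hnS : n ∈ S
      · rw [Set.indicator_of_mem hnS, Set.indicator_of_mem hnS]
        have hp : 0 ≤ 1 / ((n : ℝ) * Real.log n) := by
          have : 0 ≤ Real.log n := Real.log_natCast_nonneg n
          positivity
        rw [Real.norm_of_nonneg hp, Real.norm_of_nonneg (by positivity)]
        rw [inv_mul_eq_div, le_div_iff₀ hc₁]
        linarith [hn.1]
      · rw [Set.indicator_of_notMem hnS, Set.indicator_of_notMem hnS]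
        simp
    · obtain ⟨n1, hn1⟩ := h1 s c (u - r) (u + r) k hadm
      obtain ⟨n2, hn2⟩ := h2 s c (u - r) (u + r) k hadm
      obtain ⟨n3, hn3⟩ := h3 s c (u - r) (u + r) k hadm
      obtain ⟨n4, hn4⟩ := eventually_atTop.1 (hadm.top.eventually_ge_atTop 1)
      refine ⟨max (max n1 n2) (max n3 n4), ?_, ?_⟩
      · intro n hn
        have g1 := hn1 n (by omega)
        have g3 := hn3 n (by omega)
        have g4 : 1 ≤ Lg s c n (u - r) := hn4 n (by omega)
        rw [h2r] at g1 g3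
        have g5 : 0 ≤ 1 / Lg s c n (u - r) := by positivity
        by_cases hnS : n ∈ S
        · simp only [Set.indicator_of_mem hnS, hnS, true_and, Set.ofPred_mem_eq]
          refine ⟨g5, ?_, ?_⟩
          · rw [mul_one_div]
            exact g3
          · refine g1.trans ?_
            rw [mul_one_div]
            refine div_le_div_of_nonneg_right ?_ (by linarith)
            exact mul_le_mul_of_nonneg_right (le_max_left _ _) (by linarith)
        · simp [Set.indicator_of_notMem hnS, hnS]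
      · intro n m hn hm
        have g2 := hn2 n m (by omega) hm
        have g4 : 1 ≤ Lg s c n (u - r) := hn4 n (by omega)
        have g4' : 1 ≤ Lg s c m (u - r) := hn4 m (by omega)
        rw [h2r] at g2
        by_cases hnS : n ∈ S
        · by_cases hmS : m ∈ S
          · simp only [Set.indicator_of_mem hnS, Set.indicator_of_mem hmS, hnS, hmS, true_and,
              Set.ofPred_mem_eq]
            refine g2.trans ?_
            rw [one_div_mul_one_div, mul_one_div]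
            refine div_le_div_of_nonneg_right ?_ (by positivity)
            exact mul_le_mul_of_nonneg_right (le_max_right _ _) (by linarith)
          · simp [Set.indicator_of_notMem hmS, hmS]
        · simp [Set.indicator_of_notMem hnS, hnS]

lemma conv_part {s c : ℕ → ℝ} {a : ℝ} (hL : Loc s c a) (k : ℤ) (S : Set ℕ) (hS : Summable (wt S)) :
    ∀ᵐ x : ℝ, a < x → {n : ℕ | n ∈ S ∧ x ∈ EE s c k n}.Finite := by
  obtain ⟨C1, hC1, h1⟩ := up1
  rw [ae_iff]
  refine measure_null_of_locally_null _ fun u hu => ?_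
  simp only [Set.mem_ofPred_eq, Classical.not_imp] at hu
  obtain ⟨hau, -⟩ := hu
  obtain ⟨r₀, hr₀, hr⟩ := hL u hau
  obtain ⟨hadm, c₁, c₂, hc₁, hc₂, hcmp⟩ := hr (r₀ / 2) (by linarith) (by linarith)
  set r := r₀ / 2 with hrdef
  have hr0 : 0 < r := by linarith
  obtain ⟨n1, hn1⟩ := h1 s c (u - r) (u + r) k hadm
  -- the sum of the measures is finite
  have hsum : Summable (fun n : ℕ => volume.real ({x | n ∈ S ∧ x ∈ EE s c k n} ∩ Set.Icc (u - r) (u + r))) := by
    refine summable_of_isBigO_nat hS ?_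
    refine Asymptotics.IsBigO.of_bound (C1 * (2 * r) * c₂) ?_
    filter_upwards [hcmp, hadm.top.eventually_ge_atTop 1, eventually_ge_atTop n1] with n hn hn1' hnn
    rw [Real.norm_of_nonneg measureReal_nonneg, Real.norm_of_nonneg (wt_nonneg S n)]
    unfold wt
    by_cases hnS : n ∈ S
    · rw [Set.indicator_of_mem hnS]
      simp only [hnS, true_and, Set.ofPred_mem_eq]
      refine (hn1 n hnn).trans ?_
      have h2r : (u + r) - (u - r) = 2 * r := by ring
      rw [h2r]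
      calc C1 * (2 * r) / Lg s c n (u - r) = C1 * (2 * r) * (1 / Lg s c n (u - r)) := by ring
        _ ≤ C1 * (2 * r) * (c₂ * (1 / ((n : ℝ) * Real.log n))) :=
            mul_le_mul_of_nonneg_left hn.2 (by positivity)
        _ = C1 * (2 * r) * c₂ * (1 / ((n : ℝ) * Real.log n)) := by ring
    · rw [Set.indicator_of_notMem hnS]
      simp [hnS]
  have hfin : ∀ n : ℕ, volume ({x | n ∈ S ∧ x ∈ EE s c k n} ∩ Set.Icc (u - r) (u + r)) ≠ ⊤ := fun n =>
    ((measure_mono Set.inter_subset_right).trans_lt measure_Icc_lt_top).ne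
  have hsum' : ∑' n : ℕ, (volume.restrict (Set.Icc (u - r) (u + r))) {x | n ∈ S ∧ x ∈ EE s c k n} ≠ ⊤ := by
    have e1 : ∀ n : ℕ, (volume.restrict (Set.Icc (u - r) (u + r))) {x | n ∈ S ∧ x ∈ EE s c k n} =
        ENNReal.ofReal (volume.real ({x | n ∈ S ∧ x ∈ EE s c k n} ∩ Set.Icc (u - r) (u + r))) := by
      intro n
      rw [Measure.restrict_apply (meas_sub S s c k n), ofReal_measureReal (hfin n)]
    simp only [e1]
    exact hsum.tsum_ofReal_ne_top
  have hae := ae_finite_setOfPred_mem hsum'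
  rw [ae_restrict_iff' measurableSet_Icc, ae_iff] at hae
  refine ⟨{x | ¬ (a < x → {n : ℕ | n ∈ S ∧ x ∈ EE s c k n}.Finite)} ∩ Set.Icc (u - r) (u + r), ?_, ?_⟩
  · refine inter_mem_nhdsWithin _ (Icc_mem_nhds (by linarith) (by linarith))
  · refine measure_mono_null ?_ hae
    intro x hx
    simp only [Set.mem_inter_iff, Set.mem_ofPred_eq, Classical.not_imp] at hx ⊢
    exact ⟨hx.2, hx.1.2⟩

lemma law {s c : ℕ → ℝ} {a : ℝ} (hL : Loc s c a) (S : Set ℕ) :
    ∀ᵐ x : ℝ, a < x → ∀ k : ℤ, ({n : ℕ | n ∈ S ∧ x ∈ EE s c k n}.Infinite ↔ ¬ Summable (wt S)) := by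
  have h : ∀ k : ℤ, ∀ᵐ x : ℝ, a < x → ({n : ℕ | n ∈ S ∧ x ∈ EE s c k n}.Infinite ↔ ¬ Summable (wt S)) := by
    intro k
    by_cases hS : Summable (wt S)
    · filter_upwards [conv_part hL k S hS] with x hx hax
      have := hx hax
      exact ⟨fun h => absurd this h, fun h => absurd hS h⟩
    · filter_upwards [div_part hL k S hS] with x hx hax
      exact ⟨fun _ => hS, fun _ => hx hax⟩
  have h2 := ae_all_iff.2 h
  filter_upwards [h2] with x hx hax k
  exact hx k hax

lemma tlog : Tendsto (fun n : ℕ => Real.log n) atTop atTop :=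
  Real.tendsto_log_atTop.comp tendsto_natCast_atTop_atTop

lemma locA (a : ℝ) : Loc (fun n => n) (fun n => n * Real.log n) a := by
  intro u _
  obtain ⟨r₀, hr₀, hr⟩ := H89B.NNP.t_FAM.1 u
  refine ⟨r₀, hr₀, fun r hr0 hr1 => ⟨(hr r hr0 hr1).1, 1 / 2, 2, by norm_num, by norm_num, ?_⟩⟩
  filter_upwards [tlog.eventually_ge_atTop (2 * |u - r| + 1), eventually_ge_atTop 1] with n h1 hn
  have h2 : (1 : ℝ) ≤ n := by exact_mod_cast hn
  have h3 := neg_abs_le (u - r)
  have h4 := le_abs_self (u - r)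
  have h0 := abs_nonneg (u - r)
  have h5 : 0 < Real.log n := by linarith
  have h6 : 0 < (n : ℝ) * (u - r) + n * Real.log n := by nlinarith
  have h7 : 0 < (n : ℝ) * Real.log n := by positivity
  unfold Lg
  constructor
  · rw [mul_one_div, div_le_div_iff₀ h7 h6]
    nlinarith
  · rw [mul_one_div, div_le_div_iff₀ h6 h7]
    nlinarith

lemma locB : Loc (fun n => n * Real.log n) (fun _ => 0) 0 := by
  intro u hu
  obtain ⟨r₀, hr₀, hr⟩ := H89B.NNP.t_FAM.2 u hu
  refine ⟨min r₀ (u / 2), lt_min hr₀ (by linarith), fun r hr0 hr1 => ?_⟩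
  have hA : 0 < u - r := by
    have := hr1.trans_le (min_le_right _ _)
    linarith
  refine ⟨(hr r hr0 (hr1.trans_le (min_le_left _ _))).1, 1 / (u - r), 1 / (u - r), by positivity, by positivity, ?_⟩
  filter_upwards [] with n
  unfold Lg
  have e : 1 / ((n : ℝ) * Real.log n * (u - r) + 0) = 1 / (u - r) * (1 / ((n : ℝ) * Real.log n)) := by
    rw [add_zero, one_div_mul_one_div, mul_comm]
  exact ⟨e.ge, e.le⟩

lemma eqA (α : ℝ) (hα : 0 < α) (n : ℕ) :
    fn (fun n => (n : ℝ)) (fun n => (n : ℝ) * Real.log n) n (Real.log α) = (α * n) ^ n := by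
  unfold fn Lg
  rcases Nat.eq_zero_or_pos n with rfl | hn
  · simp
  have hn0 : (0 : ℝ) < n := by exact_mod_cast hn
  have : (n : ℝ) * Real.log α + n * Real.log n = n * Real.log (α * n) := by
    rw [Real.log_mul hα.ne' hn0.ne']; ring
  rw [this, Real.exp_nat_mul, Real.exp_log (by positivity)]

lemma eqB (α : ℝ) (n : ℕ) : fn (fun n => (n : ℝ) * Real.log n) (fun _ => 0) n α = (n : ℝ) ^ (α * n) := by
  unfold fn Lg
  rcases Nat.eq_zero_or_pos n with rfl | hn
  · simp
  have hn0 : (0 : ℝ) < n := by exact_mod_cast hn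
  rw [Real.rpow_def_of_pos hn0]
  congr 1
  ring

lemma exp_ae {P : ℝ → Prop} (h : ∀ᵐ x : ℝ, P x) : ∀ᵐ α : ℝ, 0 < α → P (Real.log α) := by
  have hN0 : volume {x | ¬ P x} = 0 := ae_iff.1 h
  have h4 : volume (Real.exp '' {x | ¬ P x}) = 0 :=
    addHaar_image_eq_zero_of_differentiableOn_of_addHaar_eq_zero volume
      Real.differentiable_exp.differentiableOn hN0
  rw [ae_iff]
  refine measure_mono_null ?_ h4
  intro α hα
  simp only [Set.mem_ofPred_eq, Classical.not_imp] at hα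
  exact ⟨Real.log α, hα.2, Real.exp_log hα.1⟩

theorem main (S : Set ℕ) :
    (∀ᵐ α : ℝ, 0 < α → ∀ k : ℤ, ({n : ℕ | n ∈ S ∧ (⌊(α * n) ^ n⌋ + k).toNat.Prime}.Infinite ↔
      ¬ Summable (wt S))) ∧
    (∀ᵐ α : ℝ, 0 < α → ∀ k : ℤ, ({n : ℕ | n ∈ S ∧ (⌊(n : ℝ) ^ (α * n)⌋ + k).toNat.Prime}.Infinite ↔
      ¬ Summable (wt S))) := by
  constructor
  · have h1 : ∀ᵐ x : ℝ, ∀ k : ℤ, ({n : ℕ | n ∈ S ∧ x ∈ EE (fun n => n) (fun n => n * Real.log n) k n}.Infinite ↔
        ¬ Summable (wt S)) := by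
      have h2 : ∀ j : ℕ, ∀ᵐ x : ℝ, -(j : ℝ) < x → ∀ k : ℤ,
          ({n : ℕ | n ∈ S ∧ x ∈ EE (fun n => n) (fun n => n * Real.log n) k n}.Infinite ↔
        ¬ Summable (wt S)) := fun j => law (locA _) S
      filter_upwards [ae_all_iff.2 h2] with x hx
      obtain ⟨j, hj⟩ := exists_nat_gt (-x)
      exact hx j (by linarith)
    filter_upwards [exp_ae h1] with α hα hα0 k
    have h3 := hα hα0 k
    have e : {n : ℕ | n ∈ S ∧ Real.log α ∈ EE (fun n => n) (fun n => n * Real.log n) k n} =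
        {n : ℕ | n ∈ S ∧ (⌊(α * n) ^ n⌋ + k).toNat.Prime} := by
      ext n
      show (n ∈ S ∧ (⌊fn (fun n => (n : ℝ)) (fun n => (n : ℝ) * Real.log n) n (Real.log α)⌋ + k).toNat.Prime) ↔ _
      rw [eqA α hα0 n]
      rfl
    rwa [e] at h3
  · filter_upwards [law locB S] with α hα hα0 k
    have h3 := hα hα0 k
    have e : {n : ℕ | n ∈ S ∧ α ∈ EE (fun n => n * Real.log n) (fun _ => 0) k n} =
        {n : ℕ | n ∈ S ∧ (⌊(n : ℝ) ^ (α * n)⌋ + k).toNat.Prime} := by
      ext n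
      show (n ∈ S ∧ (⌊fn (fun n => (n : ℝ) * Real.log n) (fun _ => 0) n α⌋ + k).toNat.Prime) ↔ _
      rw [eqB α n]
      rfl
    rwa [e] at h3

end Pool.Agent.Helper2.NNP
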