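import Pool.Agent.Helper2.NNP.Stm

/-!
# Integrals of Fejér's kernels
-/

set_option autoImplicit false

open MeasureTheory Filter Topology Finset
open scoped Real

namespace Pool.Agent.Helper2.NNP

/-- the additive character -/
noncomputable def ev (a x : ℝ) : ℂ := Complex.exp (((2 * π * (a * x) : ℝ) : ℂ) * Complex.I)

lemma ev_add (a b x : ℝ) : ev (a + b) x = ev a x * ev b x := by
  unfold ev
  rw [← Complex.exp_add]
  congr 1
  push_cast
  ring

lemma ev_add' (a x y : ℝ) : ev a (x + y) = ev a x * ev a y := by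
  unfold ev
  rw [← Complex.exp_add]
  congr 1
  push_cast
  ring

lemma ev_zero (x : ℝ) : ev 0 x = 1 := by
  unfold ev
  simp

lemma norm_ev (a x : ℝ) : ‖ev a x‖ = 1 := by
  unfold ev
  exact Complex.norm_exp_ofReal_mul_I _

lemma conj_ev (a x : ℝ) : (starRingEnd ℂ) (ev a x) = ev (-a) x := by
  unfold ev
  rw [← Complex.exp_conj]
  congr 1
  rw [map_mul, Complex.conj_I, Complex.conj_ofReal]
  push_cast
  ring

lemma cont_ev (a : ℝ) : Continuous (ev a) := by
  unfold ev
  fun_prop

lemma Kn_expand (D : ℕ) (x : ℝ) : ((Kn D x : ℝ) : ℂ) =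
    (1 / (D : ℂ) ^ 2) * ∑ h ∈ range D, ∑ g ∈ range D, ev (((h : ℝ) - g) / D) x := by
  have h0 : ∀ h : ℕ, Complex.exp (((2 * π * h * x / D : ℝ) : ℂ) * Complex.I) = ev ((h : ℝ) / D) x := by
    intro h
    unfold ev
    congr 2
    push_cast
    ring
  unfold Kn
  simp only [h0]
  have h1 : ((‖∑ h ∈ range D, ev ((h : ℝ) / D) x‖ ^ 2 : ℝ) : ℂ) =
      ∑ h ∈ range D, ∑ g ∈ range D, ev (((h : ℝ) - g) / D) x := by
    have h2 : ((‖∑ h ∈ range D, ev ((h : ℝ) / D) x‖ ^ 2 : ℝ) : ℂ) =
        (∑ h ∈ range D, ev ((h : ℝ) / D) x) * (starRingEnd ℂ) (∑ h ∈ range D, ev ((h : ℝ) / D) x) := by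
      rw [Complex.mul_conj, Complex.normSq_eq_norm_sq]
    rw [h2, map_sum, Finset.sum_mul_sum]
    refine Finset.sum_congr rfl fun h _ => Finset.sum_congr rfl fun g _ => ?_
    rw [conj_ev, ← ev_add]
    congr 1
    ring
  rw [Complex.ofReal_div, h1]
  push_cast
  ring

lemma Kn_cont (D : ℕ) : Continuous (Kn D) := by
  unfold Kn
  fun_prop

lemma Kn_nonneg (D : ℕ) (x : ℝ) : 0 ≤ Kn D x := by
  unfold Kn
  positivity

lemma one_div_le_abs {D h g : ℕ} (hD : 1 ≤ D) (hg : h ≠ g) : 1 / (D : ℝ) ≤ |((h : ℝ) - g) / D| := by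
  have hD' : (0 : ℝ) < D := by exact_mod_cast hD
  rw [abs_div, abs_of_pos hD']
  refine div_le_div_of_nonneg_right ?_ hD'.le
  have h1 : (1 : ℤ) ≤ |(h : ℤ) - g| := by
    apply Int.one_le_abs
    omega
  exact_mod_cast h1

lemma norm_sum_le_of_le' {D : ℕ} {F : ℕ → ℂ} {R : ℝ} (s : Finset ℕ) (hs : s.card = D) (h : ∀ i ∈ s, ‖F i‖ ≤ R) :
    ‖∑ i ∈ s, F i‖ ≤ D * R := by
  refine (norm_sum_le _ _).trans ?_
  refine (Finset.sum_le_sum h).trans ?_
  rw [Finset.sum_const, hs, nsmul_eq_mul]

/-- the first integral -/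
lemma int_K1 {C : ℝ} (hC : 0 < C) {A B S c : ℝ} (hI : ∀ a : ℝ, a ≠ 0 →
    ‖∫ x in A..B, Complex.exp (((2 * π * (a * Real.exp (S * x + c)) : ℝ) : ℂ) * Complex.I)‖ ≤
    C / (|a| * Real.exp (S * A + c))) (D : ℕ) (hD : 1 ≤ D) (τ : ℝ) :
    |(∫ x in A..B, Kn D (Real.exp (S * x + c) + τ)) - (B - A) / D| ≤
      C * D / Real.exp (S * A + c) := by
  have hD' : (0 : ℝ) < D := by exact_mod_cast hD
  have hDc : (D : ℂ) ≠ 0 := by exact_mod_cast hD'.ne'
  have hE : 0 < Real.exp (S * A + c) := Real.exp_pos _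
  have hcont : ∀ a : ℝ, Continuous fun x : ℝ => ev a (Real.exp (S * x + c) + τ) := by
    intro a
    exact (cont_ev a).comp (by fun_prop)
  have h1 : ((∫ x in A..B, Kn D (Real.exp (S * x + c) + τ) : ℝ) : ℂ) =
      (1 / (D : ℂ) ^ 2) * ∑ h ∈ range D, ∑ g ∈ range D,
        ∫ x in A..B, ev (((h : ℝ) - g) / D) (Real.exp (S * x + c) + τ) := by
    rw [← intervalIntegral.integral_ofReal]
    simp only [Kn_expand]
    rw [intervalIntegral.integral_const_mul, intervalIntegral.integral_finsetSum]
    · congr 1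
      refine Finset.sum_congr rfl fun h _ => ?_
      rw [intervalIntegral.integral_finsetSum]
      intro g _
      exact (hcont _).intervalIntegrable _ _
    · intro h _
      exact (continuous_finsetSum _ fun g _ => hcont _).intervalIntegrable _ _
  have h2 : (((B - A) / D : ℝ) : ℂ) = (1 / (D : ℂ) ^ 2) * ∑ h ∈ range D, ∑ g ∈ range D,
      (if h = g then ((B - A : ℝ) : ℂ) else 0) := by
    have : ∀ h ∈ range D, ∑ g ∈ range D, (if h = g then ((B - A : ℝ) : ℂ) else 0) = ((B - A : ℝ) : ℂ) := by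
      intro h hh
      rw [Finset.sum_ite_eq, if_pos hh]
    rw [Finset.sum_congr rfl this, Finset.sum_const, card_range, nsmul_eq_mul]
    push_cast
    field_simp
  have h3 : ∀ h g : ℕ, ‖(∫ x in A..B, ev (((h : ℝ) - g) / D) (Real.exp (S * x + c) + τ)) -
      (if h = g then ((B - A : ℝ) : ℂ) else 0)‖ ≤ C * D / Real.exp (S * A + c) := by
    intro h g
    by_cases hg : h = g
    · subst hg
      rw [if_pos rfl]
      simp only [sub_self, zero_div, ev_zero]
      simp
      positivity
    · rw [if_neg hg, sub_zero]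
      set a : ℝ := ((h : ℝ) - g) / D with ha
      have ha1 : 1 / (D : ℝ) ≤ |a| := one_div_le_abs hD hg
      have ha0 : a ≠ 0 := by
        intro h0
        rw [h0, abs_zero] at ha1
        have : 0 < 1 / (D : ℝ) := by positivity
        linarith
      have h4 : ∀ x : ℝ, ev a (Real.exp (S * x + c) + τ) =
          ev a τ * Complex.exp (((2 * π * (a * Real.exp (S * x + c)) : ℝ) : ℂ) * Complex.I) := by
        intro x
        rw [ev_add', mul_comm]
        rfl
      simp only [h4]
      rw [intervalIntegral.integral_const_mul, norm_mul, norm_ev, one_mul]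
      refine (hI a ha0).trans ?_
      rw [div_le_div_iff₀ (by positivity) hE]
      have h5 : 1 ≤ |a| * D := by
        rw [div_le_iff₀ hD'] at ha1
        exact ha1
      have h6 : 0 < C * Real.exp (S * A + c) := by positivity
      nlinarith
  have h4 : ‖(((∫ x in A..B, Kn D (Real.exp (S * x + c) + τ)) - (B - A) / D : ℝ) : ℂ)‖ ≤
      C * D / Real.exp (S * A + c) := by
    rw [Complex.ofReal_sub, h1, h2, ← mul_sub, ← Finset.sum_sub_distrib, norm_mul]
    have h5 : ‖∑ h ∈ range D, ((∑ g ∈ range D,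
        ∫ x in A..B, ev (((h : ℝ) - g) / D) (Real.exp (S * x + c) + τ)) -
        ∑ g ∈ range D, (if h = g then ((B - A : ℝ) : ℂ) else 0))‖ ≤
        (D : ℝ) ^ 2 * (C * D / Real.exp (S * A + c)) := by
      refine (norm_sum_le _ _).trans ?_
      have h6 : ∀ h ∈ range D, ‖(∑ g ∈ range D,
          ∫ x in A..B, ev (((h : ℝ) - g) / D) (Real.exp (S * x + c) + τ)) -
          ∑ g ∈ range D, (if h = g then ((B - A : ℝ) : ℂ) else 0)‖ ≤
          D * (C * D / Real.exp (S * A + c)) := by
        intro h _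
        rw [← Finset.sum_sub_distrib]
        refine (norm_sum_le _ _).trans ?_
        refine (Finset.sum_le_sum fun g _ => h3 h g).trans ?_
        rw [Finset.sum_const, card_range, nsmul_eq_mul]
      refine (Finset.sum_le_sum h6).trans ?_
      rw [Finset.sum_const, card_range, nsmul_eq_mul]
      apply le_of_eq
      ring
    have h7 : ‖(1 / (D : ℂ) ^ 2)‖ = 1 / (D : ℝ) ^ 2 := by
      rw [norm_div, norm_one, norm_pow, Complex.norm_natCast]
    rw [h7]
    calc 1 / (D : ℝ) ^ 2 * _ ≤ 1 / (D : ℝ) ^ 2 * ((D : ℝ) ^ 2 * (C * D / Real.exp (S * A + c))) :=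
          mul_le_mul_of_nonneg_left h5 (by positivity)
      _ = C * D / Real.exp (S * A + c) := by
          field_simp
  rwa [Complex.norm_real, Real.norm_eq_abs] at h4

/-- the second integral -/
lemma int_K2 {C : ℝ} (hC : 0 < C) {A B S c T d : ℝ} (hI : ∀ a b : ℝ, b ≠ 0 →
    ‖∫ x in A..B, Complex.exp (((2 * π * (a * Real.exp (S * x + c) + b * Real.exp (T * x + d)) : ℝ) : ℂ) *
      Complex.I)‖ ≤ C / √(|b| * Real.exp (T * A + d))) (D E : ℕ) (hD : 1 ≤ D) (hE : 1 ≤ E) (τ : ℝ) :
    |(∫ x in A..B, Kn D (Real.exp (S * x + c) + τ) * Kn E (Real.exp (T * x + d) + τ)) -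
      (1 / (E : ℝ)) * ∫ x in A..B, Kn D (Real.exp (S * x + c) + τ)| ≤
      C * √(E : ℝ) / √(Real.exp (T * A + d)) := by
  have hD' : (0 : ℝ) < D := by exact_mod_cast hD
  have hE' : (0 : ℝ) < E := by exact_mod_cast hE
  have hEc : (E : ℂ) ≠ 0 := by exact_mod_cast hE'.ne'
  have hX : 0 < Real.exp (T * A + d) := Real.exp_pos _
  have hcont : ∀ a : ℝ, Continuous fun x : ℝ => ev a (Real.exp (S * x + c) + τ) := by
    intro a
    exact (cont_ev a).comp (by fun_prop)
  have hcont' : ∀ a : ℝ, Continuous fun x : ℝ => ev a (Real.exp (T * x + d) + τ) := by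
    intro a
    exact (cont_ev a).comp (by fun_prop)
  -- the difference as one integral
  have hK : Continuous fun x : ℝ => Kn D (Real.exp (S * x + c) + τ) := (Kn_cont D).comp (by fun_prop)
  have hK' : Continuous fun x : ℝ => Kn E (Real.exp (T * x + d) + τ) := (Kn_cont E).comp (by fun_prop)
  have h0 : (∫ x in A..B, Kn D (Real.exp (S * x + c) + τ) * Kn E (Real.exp (T * x + d) + τ)) -
      (1 / (E : ℝ)) * (∫ x in A..B, Kn D (Real.exp (S * x + c) + τ)) =
      ∫ x in A..B, Kn D (Real.exp (S * x + c) + τ) * (Kn E (Real.exp (T * x + d) + τ) - 1 / (E : ℝ)) := by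
    rw [← intervalIntegral.integral_const_mul, ← intervalIntegral.integral_sub]
    · congr 1
      funext x
      ring
    · exact (hK.mul hK').intervalIntegrable _ _
    · exact (continuous_const.mul hK).intervalIntegrable _ _
  have h2 : ∀ y : ℝ, ((Kn E y - 1 / (E : ℝ) : ℝ) : ℂ) = (1 / (E : ℂ) ^ 2) * ∑ p ∈ range E, ∑ q ∈ range E,
      (if p = q then (0 : ℂ) else ev (((p : ℝ) - q) / E) y) := by
    intro y
    have e1 : (((1 / (E : ℝ) : ℝ)) : ℂ) = (1 / (E : ℂ) ^ 2) * ∑ h ∈ range E, ∑ g ∈ range E,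
        (if h = g then (1 : ℂ) else 0) := by
      have : ∀ h ∈ range E, ∑ g ∈ range E, (if h = g then (1 : ℂ) else 0) = 1 := by
        intro h hh
        rw [Finset.sum_ite_eq, if_pos hh]
      rw [Finset.sum_congr rfl this, Finset.sum_const, card_range, nsmul_eq_mul]
      push_cast
      field_simp
    rw [Complex.ofReal_sub, Kn_expand, e1, ← mul_sub, ← Finset.sum_sub_distrib]
    congr 1
    refine Finset.sum_congr rfl fun p _ => ?_
    rw [← Finset.sum_sub_distrib]
    refine Finset.sum_congr rfl fun q _ => ?_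
    by_cases hpq : p = q
    · subst hpq
      simp [ev_zero]
    · simp [hpq]
  have h1 : ((∫ x in A..B, Kn D (Real.exp (S * x + c) + τ) *
      (Kn E (Real.exp (T * x + d) + τ) - 1 / (E : ℝ)) : ℝ) : ℂ) =
      (1 / (D : ℂ) ^ 2) * (1 / (E : ℂ) ^ 2) * ∑ h ∈ range D, ∑ g ∈ range D, ∑ p ∈ range E, ∑ q ∈ range E,
        ∫ x in A..B, ev (((h : ℝ) - g) / D) (Real.exp (S * x + c) + τ) *
          (if p = q then (0 : ℂ) else ev (((p : ℝ) - q) / E) (Real.exp (T * x + d) + τ)) := by
    rw [← intervalIntegral.integral_ofReal]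
    have e1 : ∀ x : ℝ, ((Kn D (Real.exp (S * x + c) + τ) *
        (Kn E (Real.exp (T * x + d) + τ) - 1 / (E : ℝ)) : ℝ) : ℂ) =
        (1 / (D : ℂ) ^ 2) * (1 / (E : ℂ) ^ 2) * ∑ h ∈ range D, ∑ g ∈ range D, ∑ p ∈ range E, ∑ q ∈ range E,
        ev (((h : ℝ) - g) / D) (Real.exp (S * x + c) + τ) *
          (if p = q then (0 : ℂ) else ev (((p : ℝ) - q) / E) (Real.exp (T * x + d) + τ)) := by
      intro x
      rw [Complex.ofReal_mul, Kn_expand, h2]
      rw [mul_mul_mul_comm]
      congr 1
      rw [Finset.sum_mul]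
      refine Finset.sum_congr rfl fun h _ => ?_
      rw [Finset.sum_mul]
      refine Finset.sum_congr rfl fun g _ => ?_
      rw [Finset.mul_sum]
      refine Finset.sum_congr rfl fun p _ => ?_
      rw [Finset.mul_sum]
    simp only [e1]
    have hc1 : ∀ h g p q : ℕ, Continuous fun x : ℝ => ev (((h : ℝ) - g) / D) (Real.exp (S * x + c) + τ) *
          (if p = q then (0 : ℂ) else ev (((p : ℝ) - q) / E) (Real.exp (T * x + d) + τ)) := by
      intro h g p q
      by_cases hpq : p = q
      · simp only [hpq, if_true, mul_zero]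
        exact continuous_const
      · simp only [hpq, if_false]
        exact (hcont _).mul (hcont' _)
    rw [intervalIntegral.integral_const_mul, intervalIntegral.integral_finsetSum]
    · congr 1
      refine Finset.sum_congr rfl fun h _ => ?_
      rw [intervalIntegral.integral_finsetSum]
      · refine Finset.sum_congr rfl fun g _ => ?_
        rw [intervalIntegral.integral_finsetSum]
        · refine Finset.sum_congr rfl fun p _ => ?_
          rw [intervalIntegral.integral_finsetSum]
          intro q _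
          exact (hc1 h g p q).intervalIntegrable _ _
        · intro p _
          exact (continuous_finsetSum _ fun q _ => hc1 h g p q).intervalIntegrable _ _
      · intro g _
        exact (continuous_finsetSum _ fun p _ => continuous_finsetSum _ fun q _ =>
          hc1 h g p q).intervalIntegrable _ _
    · intro h _
      exact (continuous_finsetSum _ fun g _ => continuous_finsetSum _ fun p _ =>
        continuous_finsetSum _ fun q _ => hc1 h g p q).intervalIntegrable _ _
  have h3 : ∀ h g p q : ℕ, ‖∫ x in A..B, ev (((h : ℝ) - g) / D) (Real.exp (S * x + c) + τ) *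
          (if p = q then (0 : ℂ) else ev (((p : ℝ) - q) / E) (Real.exp (T * x + d) + τ))‖ ≤
      C * √(E : ℝ) / √(Real.exp (T * A + d)) := by
    intro h g p q
    by_cases hpq : p = q
    · simp only [hpq, if_true, mul_zero]
      simp
      positivity
    · simp only [hpq, if_false]
      set a : ℝ := ((h : ℝ) - g) / D with ha
      set b : ℝ := ((p : ℝ) - q) / E with hb
      have hb1 : 1 / (E : ℝ) ≤ |b| := one_div_le_abs hE hpq
      have hb0 : b ≠ 0 := by
        intro h0
        rw [h0, abs_zero] at hb1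
        have : 0 < 1 / (E : ℝ) := by positivity
        linarith
      have h4 : ∀ x : ℝ, ev a (Real.exp (S * x + c) + τ) * ev b (Real.exp (T * x + d) + τ) =
          (ev a τ * ev b τ) * Complex.exp (((2 * π * (a * Real.exp (S * x + c) +
            b * Real.exp (T * x + d)) : ℝ) : ℂ) * Complex.I) := by
        intro x
        rw [ev_add', ev_add']
        have : Complex.exp (((2 * π * (a * Real.exp (S * x + c) +
            b * Real.exp (T * x + d)) : ℝ) : ℂ) * Complex.I) =
            ev a (Real.exp (S * x + c)) * ev b (Real.exp (T * x + d)) := by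
          unfold ev
          rw [← Complex.exp_add]
          congr 1
          push_cast
          ring
        rw [this]
        ring
      simp only [h4]
      rw [intervalIntegral.integral_const_mul, norm_mul, norm_mul, norm_ev, norm_ev, one_mul, one_mul]
      refine (hI a b hb0).trans ?_
      have h5 : √(Real.exp (T * A + d)) / √(E : ℝ) ≤ √(|b| * Real.exp (T * A + d)) := by
        rw [← Real.sqrt_div hX.le]
        apply Real.sqrt_le_sqrt
        calc Real.exp (T * A + d) / E = (1 / (E : ℝ)) * Real.exp (T * A + d) := by ring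
          _ ≤ |b| * Real.exp (T * A + d) := mul_le_mul_of_nonneg_right hb1 hX.le
      have h6 : 0 < √(Real.exp (T * A + d)) / √(E : ℝ) := by positivity
      calc C / √(|b| * Real.exp (T * A + d)) ≤ C / (√(Real.exp (T * A + d)) / √(E : ℝ)) :=
            div_le_div_of_nonneg_left hC.le h6 h5
        _ = C * √(E : ℝ) / √(Real.exp (T * A + d)) := by
            field_simp
  have h4 : ‖((∫ x in A..B, Kn D (Real.exp (S * x + c) + τ) *
      (Kn E (Real.exp (T * x + d) + τ) - 1 / (E : ℝ)) : ℝ) : ℂ)‖ ≤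
      C * √(E : ℝ) / √(Real.exp (T * A + d)) := by
    rw [h1, norm_mul]
    set R : ℝ := C * √(E : ℝ) / √(Real.exp (T * A + d)) with hR
    have h5 : ‖∑ h ∈ range D, ∑ g ∈ range D, ∑ p ∈ range E, ∑ q ∈ range E,
        ∫ x in A..B, ev (((h : ℝ) - g) / D) (Real.exp (S * x + c) + τ) *
          (if p = q then (0 : ℂ) else ev (((p : ℝ) - q) / E) (Real.exp (T * x + d) + τ))‖ ≤
        D * (D * (E * (E * R))) := by
      refine norm_sum_le_of_le' (range D) (card_range D) (fun h _ => ?_)
      refine norm_sum_le_of_le' (range D) (card_range D) (fun g _ => ?_)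
      refine norm_sum_le_of_le' (range E) (card_range E) (fun p _ => ?_)
      refine norm_sum_le_of_le' (range E) (card_range E) (fun q _ => ?_)
      exact h3 h g p q
    have h7 : ‖(1 / (D : ℂ) ^ 2) * (1 / (E : ℂ) ^ 2)‖ = 1 / (D : ℝ) ^ 2 * (1 / (E : ℝ) ^ 2) := by
      rw [norm_mul, norm_div, norm_one, norm_pow, Complex.norm_natCast, norm_div, norm_one, norm_pow,
        Complex.norm_natCast]
    rw [h7]
    calc 1 / (D : ℝ) ^ 2 * (1 / (E : ℝ) ^ 2) * _ ≤
          1 / (D : ℝ) ^ 2 * (1 / (E : ℝ) ^ 2) * (D * (D * (E * (E * R)))) :=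
          mul_le_mul_of_nonneg_left h5 (by positivity)
      _ = R := by
          field_simp
  rw [h0]
  rwa [Complex.norm_real, Real.norm_eq_abs] at h4

end Pool.Agent.Helper2.NNP
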