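import Pool.Agent.Helper2.NNP.Up1

/-!
# Integrals of the majorants
-/

set_option autoImplicit false

open MeasureTheory Filter Topology Finset
open scoped Real

namespace Pool.Agent.Helper2.NNP

lemma SS_cont (ρ : ℕ → ℝ) (D : ℕ) : Continuous (SS ρ D) := by
  unfold SS
  exact continuous_finsetSum _ fun d _ => continuous_finsetSum _ fun e _ =>
    continuous_const.mul (Kn_cont _)

/-- the quadratic form -/
noncomputable def QF (ρ : ℕ → ℝ) (D : ℕ) : ℝ :=
  ∑ d ∈ Icc 1 D, ∑ e ∈ Icc 1 D, ρ d * ρ e / (Nat.lcm d e : ℝ)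

lemma lcm_bounds {D d e : ℕ} (hd : d ∈ Icc 1 D) (he : e ∈ Icc 1 D) :
    1 ≤ Nat.lcm d e ∧ Nat.lcm d e ≤ D ^ 2 := by
  rw [mem_Icc] at hd he
  refine ⟨Nat.lcm_pos hd.1 he.1, ?_⟩
  calc Nat.lcm d e ≤ d * e := Nat.le_of_dvd (Nat.mul_pos hd.1 he.1) (Nat.lcm_dvd_mul d e)
    _ ≤ D * D := Nat.mul_le_mul hd.2 he.2
    _ = D ^ 2 := (sq D).symm

lemma int_SS1 {C : ℝ} (hC : 0 < C) {A B S c : ℝ} (hI : ∀ a : ℝ, a ≠ 0 →
    ‖∫ x in A..B, Complex.exp (((2 * π * (a * Real.exp (S * x + c)) : ℝ) : ℂ) * Complex.I)‖ ≤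
    C / (|a| * Real.exp (S * A + c))) (ρ : ℕ → ℝ) (hρ : ∀ d, |ρ d| ≤ 1) (D : ℕ) (τ : ℝ) :
    |(∫ x in A..B, SS ρ D (Real.exp (S * x + c) + τ)) - (B - A) * QF ρ D| ≤
      C * (D : ℝ) ^ 4 / Real.exp (S * A + c) := by
  have hX : 0 < Real.exp (S * A + c) := Real.exp_pos _
  have hK : ∀ E : ℕ, Continuous fun x : ℝ => Kn E (Real.exp (S * x + c) + τ) :=
    fun E => (Kn_cont E).comp (by fun_prop)
  have h1 : (∫ x in A..B, SS ρ D (Real.exp (S * x + c) + τ)) =
      ∑ d ∈ Icc 1 D, ∑ e ∈ Icc 1 D, ρ d * ρ e * ∫ x in A..B, Kn (Nat.lcm d e) (Real.exp (S * x + c) + τ) := by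
    unfold SS
    rw [intervalIntegral.integral_finsetSum]
    · refine Finset.sum_congr rfl fun d _ => ?_
      rw [intervalIntegral.integral_finsetSum]
      · refine Finset.sum_congr rfl fun e _ => ?_
        rw [intervalIntegral.integral_const_mul]
      · intro e _
        exact (continuous_const.mul (hK _)).intervalIntegrable _ _
    · intro d _
      exact (continuous_finsetSum _ fun e _ => continuous_const.mul (hK _)).intervalIntegrable _ _
  have h2 : (B - A) * QF ρ D = ∑ d ∈ Icc 1 D, ∑ e ∈ Icc 1 D, ρ d * ρ e * ((B - A) / (Nat.lcm d e : ℝ)) := by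
    unfold QF
    rw [Finset.mul_sum]
    refine Finset.sum_congr rfl fun d _ => ?_
    rw [Finset.mul_sum]
    refine Finset.sum_congr rfl fun e _ => ?_
    ring
  rw [h1, h2, ← Finset.sum_sub_distrib]
  refine (Finset.abs_sum_le_sum_abs _ _).trans ?_
  have h3 : ∀ d ∈ Icc 1 D, |(∑ e ∈ Icc 1 D, ρ d * ρ e * ∫ x in A..B, Kn (Nat.lcm d e) (Real.exp (S * x + c) + τ)) -
      ∑ e ∈ Icc 1 D, ρ d * ρ e * ((B - A) / (Nat.lcm d e : ℝ))| ≤
      (D : ℝ) * (C * (D : ℝ) ^ 2 / Real.exp (S * A + c)) := by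
    intro d hd
    rw [← Finset.sum_sub_distrib]
    refine (Finset.abs_sum_le_sum_abs _ _).trans ?_
    have h4 : ∀ e ∈ Icc 1 D, |ρ d * ρ e * (∫ x in A..B, Kn (Nat.lcm d e) (Real.exp (S * x + c) + τ)) -
        ρ d * ρ e * ((B - A) / (Nat.lcm d e : ℝ))| ≤ C * (D : ℝ) ^ 2 / Real.exp (S * A + c) := by
      intro e he
      rw [← mul_sub, abs_mul, abs_mul]
      obtain ⟨hl1, hl2⟩ := lcm_bounds hd he
      have h5 := int_K1 hC hI (Nat.lcm d e) hl1 τ
      have hl2' : ((Nat.lcm d e : ℕ) : ℝ) ≤ (D : ℝ) ^ 2 := by exact_mod_cast hl2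
      have h6 : C * ((Nat.lcm d e : ℕ) : ℝ) / Real.exp (S * A + c) ≤ C * (D : ℝ) ^ 2 / Real.exp (S * A + c) :=
        div_le_div_of_nonneg_right (mul_le_mul_of_nonneg_left hl2' hC.le) hX.le
      have h7 : |ρ d| * |ρ e| ≤ 1 := mul_le_one₀ (hρ d) (abs_nonneg _) (hρ e)
      calc |ρ d| * |ρ e| * _ ≤ 1 * _ := mul_le_mul_of_nonneg_right h7 (abs_nonneg _)
        _ ≤ _ := by rw [one_mul]; exact h5.trans h6
    refine (Finset.sum_le_sum h4).trans ?_
    rw [Finset.sum_const, Nat.card_Icc, nsmul_eq_mul]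
    simp
  refine (Finset.sum_le_sum h3).trans ?_
  rw [Finset.sum_const, Nat.card_Icc, nsmul_eq_mul]
  apply le_of_eq
  simp
  ring

lemma int_SS2 {C : ℝ} (hC : 0 < C) {A B S c T d : ℝ} (hI : ∀ a b : ℝ, b ≠ 0 →
    ‖∫ x in A..B, Complex.exp (((2 * π * (a * Real.exp (S * x + c) + b * Real.exp (T * x + d)) : ℝ) : ℂ) *
      Complex.I)‖ ≤ C / √(|b| * Real.exp (T * A + d))) (ρ σ : ℕ → ℝ) (hρ : ∀ d, |ρ d| ≤ 1)
    (hσ : ∀ d, |σ d| ≤ 1) (D E : ℕ) (τ : ℝ) :
    |(∫ x in A..B, SS ρ D (Real.exp (S * x + c) + τ) * SS σ E (Real.exp (T * x + d) + τ)) -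
      QF σ E * ∫ x in A..B, SS ρ D (Real.exp (S * x + c) + τ)| ≤
      C * (D : ℝ) ^ 2 * (E : ℝ) ^ 3 / √(Real.exp (T * A + d)) := by
  have hX : 0 < √(Real.exp (T * A + d)) := Real.sqrt_pos.2 (Real.exp_pos _)
  have hK : ∀ E : ℕ, Continuous fun x : ℝ => Kn E (Real.exp (S * x + c) + τ) :=
    fun E => (Kn_cont E).comp (by fun_prop)
  have hK' : ∀ E : ℕ, Continuous fun x : ℝ => Kn E (Real.exp (T * x + d) + τ) :=
    fun E => (Kn_cont E).comp (by fun_prop)
  have h1 : (∫ x in A..B, SS ρ D (Real.exp (S * x + c) + τ) * SS σ E (Real.exp (T * x + d) + τ)) =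
      ∑ p ∈ Icc 1 D, ∑ q ∈ Icc 1 D, ∑ u ∈ Icc 1 E, ∑ v ∈ Icc 1 E, ρ p * ρ q * (σ u * σ v) *
        ∫ x in A..B, Kn (Nat.lcm p q) (Real.exp (S * x + c) + τ) * Kn (Nat.lcm u v) (Real.exp (T * x + d) + τ) := by
    have e1 : ∀ x : ℝ, SS ρ D (Real.exp (S * x + c) + τ) * SS σ E (Real.exp (T * x + d) + τ) =
        ∑ p ∈ Icc 1 D, ∑ q ∈ Icc 1 D, ∑ u ∈ Icc 1 E, ∑ v ∈ Icc 1 E, ρ p * ρ q * (σ u * σ v) *
        (Kn (Nat.lcm p q) (Real.exp (S * x + c) + τ) * Kn (Nat.lcm u v) (Real.exp (T * x + d) + τ)) := by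
      intro x
      unfold SS
      rw [Finset.sum_mul]
      refine Finset.sum_congr rfl fun p _ => ?_
      rw [Finset.sum_mul]
      refine Finset.sum_congr rfl fun q _ => ?_
      rw [Finset.mul_sum]
      refine Finset.sum_congr rfl fun u _ => ?_
      rw [Finset.mul_sum]
      refine Finset.sum_congr rfl fun v _ => ?_
      ring
    simp only [e1]
    have hc : ∀ p q u v : ℕ, Continuous fun x : ℝ => ρ p * ρ q * (σ u * σ v) *
        (Kn (Nat.lcm p q) (Real.exp (S * x + c) + τ) * Kn (Nat.lcm u v) (Real.exp (T * x + d) + τ)) :=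
      fun p q u v => continuous_const.mul ((hK _).mul (hK' _))
    rw [intervalIntegral.integral_finsetSum]
    · refine Finset.sum_congr rfl fun p _ => ?_
      rw [intervalIntegral.integral_finsetSum]
      · refine Finset.sum_congr rfl fun q _ => ?_
        rw [intervalIntegral.integral_finsetSum]
        · refine Finset.sum_congr rfl fun u _ => ?_
          rw [intervalIntegral.integral_finsetSum]
          · refine Finset.sum_congr rfl fun v _ => ?_
            rw [intervalIntegral.integral_const_mul]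
          · intro v _
            exact (hc p q u v).intervalIntegrable _ _
        · intro u _
          exact (continuous_finsetSum _ fun v _ => hc p q u v).intervalIntegrable _ _
      · intro q _
        exact (continuous_finsetSum _ fun u _ => continuous_finsetSum _ fun v _ =>
          hc p q u v).intervalIntegrable _ _
    · intro p _
      exact (continuous_finsetSum _ fun q _ => continuous_finsetSum _ fun u _ =>
        continuous_finsetSum _ fun v _ => hc p q u v).intervalIntegrable _ _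
  have h2 : (∫ x in A..B, SS ρ D (Real.exp (S * x + c) + τ)) =
      ∑ p ∈ Icc 1 D, ∑ q ∈ Icc 1 D, ρ p * ρ q * ∫ x in A..B, Kn (Nat.lcm p q) (Real.exp (S * x + c) + τ) := by
    unfold SS
    rw [intervalIntegral.integral_finsetSum]
    · refine Finset.sum_congr rfl fun d _ => ?_
      rw [intervalIntegral.integral_finsetSum]
      · refine Finset.sum_congr rfl fun e _ => ?_
        rw [intervalIntegral.integral_const_mul]
      · intro e _
        exact (continuous_const.mul (hK _)).intervalIntegrable _ _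
    · intro d _
      exact (continuous_finsetSum _ fun e _ => continuous_const.mul (hK _)).intervalIntegrable _ _
  have h3 : QF σ E * (∫ x in A..B, SS ρ D (Real.exp (S * x + c) + τ)) =
      ∑ p ∈ Icc 1 D, ∑ q ∈ Icc 1 D, ∑ u ∈ Icc 1 E, ∑ v ∈ Icc 1 E, ρ p * ρ q * (σ u * σ v) *
        ((1 / ((Nat.lcm u v : ℕ) : ℝ)) * ∫ x in A..B, Kn (Nat.lcm p q) (Real.exp (S * x + c) + τ)) := by
    rw [h2, Finset.mul_sum]
    refine Finset.sum_congr rfl fun p _ => ?_
    rw [Finset.mul_sum]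
    refine Finset.sum_congr rfl fun q _ => ?_
    unfold QF
    rw [Finset.sum_mul]
    refine Finset.sum_congr rfl fun u _ => ?_
    rw [Finset.sum_mul]
    refine Finset.sum_congr rfl fun v _ => ?_
    ring
  rw [h1, h3]
  set R : ℝ := C * (E : ℝ) / √(Real.exp (T * A + d)) with hR
  have key : ∀ p ∈ Icc 1 D, ∀ q ∈ Icc 1 D, ∀ u ∈ Icc 1 E, ∀ v ∈ Icc 1 E,
      |ρ p * ρ q * (σ u * σ v) * (∫ x in A..B, Kn (Nat.lcm p q) (Real.exp (S * x + c) + τ) *
        Kn (Nat.lcm u v) (Real.exp (T * x + d) + τ)) - ρ p * ρ q * (σ u * σ v) *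
        ((1 / ((Nat.lcm u v : ℕ) : ℝ)) * ∫ x in A..B, Kn (Nat.lcm p q) (Real.exp (S * x + c) + τ))| ≤ R := by
    intro p hp q hq u hu v hv
    rw [← mul_sub, abs_mul, abs_mul, abs_mul, abs_mul]
    obtain ⟨hl1, hl2⟩ := lcm_bounds hp hq
    obtain ⟨hm1, hm2⟩ := lcm_bounds hu hv
    have h5 := int_K2 hC hI (Nat.lcm p q) (Nat.lcm u v) hl1 hm1 τ
    have hm2' : √((Nat.lcm u v : ℕ) : ℝ) ≤ (E : ℝ) := by
      rw [Real.sqrt_le_left (by positivity)]
      exact_mod_cast hm2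
    have h6 : C * √((Nat.lcm u v : ℕ) : ℝ) / √(Real.exp (T * A + d)) ≤ R :=
      div_le_div_of_nonneg_right (mul_le_mul_of_nonneg_left hm2' hC.le) hX.le
    have h7 : |ρ p| * |ρ q| ≤ 1 := mul_le_one₀ (hρ p) (abs_nonneg _) (hρ q)
    have h8 : |σ u| * |σ v| ≤ 1 := mul_le_one₀ (hσ u) (abs_nonneg _) (hσ v)
    have h9 : |ρ p| * |ρ q| * (|σ u| * |σ v|) ≤ 1 := mul_le_one₀ h7 (by positivity) h8
    calc |ρ p| * |ρ q| * (|σ u| * |σ v|) * _ ≤ 1 * _ := mul_le_mul_of_nonneg_right h9 (abs_nonneg _)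
      _ ≤ _ := by rw [one_mul]; exact h5.trans h6
  have step : ∀ (N : ℕ) (F G : ℕ → ℝ) (Q : ℝ), (∀ i ∈ Icc 1 N, |F i - G i| ≤ Q) →
      |∑ i ∈ Icc 1 N, F i - ∑ i ∈ Icc 1 N, G i| ≤ N * Q := by
    intro N F G Q h
    rw [← Finset.sum_sub_distrib]
    refine (Finset.abs_sum_le_sum_abs _ _).trans ?_
    refine (Finset.sum_le_sum h).trans ?_
    rw [Finset.sum_const, Nat.card_Icc, nsmul_eq_mul]
    simp
  have h10 := step D _ _ _ fun p hp => step D _ _ _ fun q hq => step E _ _ _ fun u hu =>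
    step E _ _ _ fun v hv => key p hp q hq u hu v hv
  refine h10.trans (le_of_eq ?_)
  rw [hR]
  ring

end Pool.Agent.Helper2.NNP
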