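import Pool.Agent.Helper2.NNP.Up2

/-!
# The upper bounds `UP1` and `UP2`
-/

set_option autoImplicit false

open MeasureTheory Filter Topology Finset
open scoped Real

namespace Pool.Agent.Helper2.NNP

lemma markov (F : ℝ → ℝ) (hF : Continuous F) (h0 : ∀ x, 0 ≤ F x) (E : Set ℝ) {A B : ℝ} (hAB : A ≤ B)
    (ε : ℝ) (hE : ∀ x ∈ E ∩ Set.Icc A B, ε ≤ F x) (hε : 0 ≤ ε) :
    ε * volume.real (E ∩ Set.Icc A B) ≤ ∫ x in A..B, F x := by
  rw [intervalIntegral.integral_of_le hAB, ← integral_Icc_eq_integral_Ioc]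
  have hint : Integrable F (volume.restrict (Set.Icc A B)) := hF.integrableOn_Icc
  have h1 := mul_meas_ge_le_integral_of_nonneg (μ := volume.restrict (Set.Icc A B))
    (Eventually.of_forall h0) hint ε
  refine le_trans (mul_le_mul_of_nonneg_left ?_ hε) h1
  have hm : MeasurableSet {x | ε ≤ F x} := (isClosed_le continuous_const hF).measurableSet
  rw [measureReal_restrict_apply hm]
  apply measureReal_mono
  · intro x hx
    exact ⟨hE x hx, hx.2⟩
  · exact ((measure_mono Set.inter_subset_right).trans_lt measure_Icc_lt_top).ne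

/-- the level of the sieve -/
noncomputable def Dn (L : ℝ) : ℕ := ⌊Real.exp (L / 100)⌋₊

lemma Dn_le (L : ℝ) : (Dn L : ℝ) ≤ Real.exp (L / 100) := Nat.floor_le (Real.exp_pos _).le

lemma Dn_ge {L : ℝ} (hL : 200 ≤ L) : Real.exp (L / 200) ≤ (Dn L : ℝ) := by
  have h1 : Real.exp (L / 100) < (Dn L : ℝ) + 1 := Nat.lt_floor_add_one _
  have h2 : Real.exp (L / 100) = Real.exp (L / 200) ^ 2 := by
    rw [← Real.exp_nat_mul]
    congr 1
    push_cast
    ring
  have h3 : 2 ≤ Real.exp (L / 200) := by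
    have h4 : (1 : ℝ) ≤ L / 200 := by linarith
    have h5 := Real.add_one_le_exp (L / 200)
    linarith
  rw [h2] at h1
  nlinarith

lemma Dn_two {L : ℝ} (hL : 200 ≤ L) : 2 ≤ Dn L := by
  have h1 := Dn_ge hL
  have h5 := Real.add_one_le_exp (L / 200)
  have h4 : (1 : ℝ) ≤ L / 200 := by linarith
  have : (2 : ℝ) ≤ (Dn L : ℝ) := by linarith
  exact_mod_cast this

lemma log_Dn {L : ℝ} (hL : 200 ≤ L) : L / 200 ≤ Real.log (Dn L) := by
  have h1 := Dn_ge hL
  have h2 := Real.log_le_log (Real.exp_pos _) h1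
  rwa [Real.log_exp] at h2

/-- the majorant on the set of the parameters -/
lemma pt (hM : S_MAJ) (s c : ℕ → ℝ) (A B : ℝ) (k : ℤ) (n : ℕ) (hs : 0 ≤ s n) (hL : 200 ≤ Lg s c n A)
    (hk : 2 + |(k : ℝ)| ≤ Real.exp (Lg s c n A / 2)) (ρ : ℕ → ℝ) (hρ : ρ 1 = 1) (x : ℝ)
    (hx : x ∈ EE s c k n ∩ Set.Icc A B) :
    2 / 5 ≤ SS ρ (Dn (Lg s c n A)) (Real.exp (s n * x + c n) + ((k : ℝ) - 1 / 2)) := by
  set L := Lg s c n A with hLdef
  have hD2 := Dn_two hL
  refine (hM (Dn L) ρ (by omega) hρ).2 _ (⌊fn s c n x⌋ + k) ?_ ?_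
  · have h1 := Int.floor_le (fn s c n x)
    have h2 := Int.lt_floor_add_one (fn s c n x)
    have h3 : Real.exp (s n * x + c n) = fn s c n x := rfl
    rw [h3]
    push_cast
    rw [abs_le]
    constructor <;> linarith
  · intro d hd hdvd
    rw [mem_Icc] at hd
    have hp : (⌊fn s c n x⌋ + k).toNat.Prime := hx.1
    have hpos : 0 < (⌊fn s c n x⌋ + k) := by
      by_contra h
      have : (⌊fn s c n x⌋ + k).toNat = 0 := Int.toNat_of_nonpos (not_lt.1 h)
      rw [this] at hp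
      exact Nat.not_prime_zero hp
    have hcast : (((⌊fn s c n x⌋ + k).toNat : ℕ) : ℤ) = ⌊fn s c n x⌋ + k := Int.toNat_of_nonneg hpos.le
    have hd' : d ∣ (⌊fn s c n x⌋ + k).toNat := by
      rw [← hcast] at hdvd
      exact_mod_cast hdvd
    rcases (Nat.dvd_prime hp).1 hd' with h1 | h1
    · omega
    · -- the prime is larger than the level
      have h2 : Real.exp L ≤ fn s c n x := by
        unfold fn
        apply Real.exp_le_exp.2
        have : A ≤ x := hx.2.1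
        show s n * A + c n ≤ s n * x + c n
        nlinarith
      have h3 := Int.lt_floor_add_one (fn s c n x)
      have h4 : (((⌊fn s c n x⌋ + k).toNat : ℕ) : ℝ) = ((⌊fn s c n x⌋ + k : ℤ) : ℝ) := by
        exact_mod_cast congrArg (fun z : ℤ => (z : ℝ)) hcast
      push_cast at h4
      have h5 : (d : ℝ) ≤ Real.exp (L / 100) := by
        have : (d : ℝ) ≤ (Dn L : ℝ) := by exact_mod_cast hd.2
        exact this.trans (Dn_le L)
      have h6 : (d : ℝ) = ⌊fn s c n x⌋ + (k : ℝ) := by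
        rw [← h4, ← h1]
      have h7 : -(|(k : ℝ)|) ≤ k := neg_abs_le _
      have h8 : Real.exp L = Real.exp (L / 100) * Real.exp (49 * L / 100) * Real.exp (L / 2) := by
        rw [← Real.exp_add, ← Real.exp_add]
        congr 1
        ring
      have h9 : 1 ≤ Real.exp (L / 100) := Real.one_le_exp (by linarith)
      have h10 : 1 ≤ Real.exp (49 * L / 100) := Real.one_le_exp (by linarith)
      have h11 : Real.exp (L / 100) * (2 + |(k : ℝ)|) ≤ Real.exp L := by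
        rw [h8]
        calc Real.exp (L / 100) * (2 + |(k : ℝ)|) ≤ Real.exp (L / 100) * Real.exp (L / 2) :=
              mul_le_mul_of_nonneg_left hk (Real.exp_pos _).le
          _ = Real.exp (L / 100) * 1 * Real.exp (L / 2) := by ring
          _ ≤ Real.exp (L / 100) * Real.exp (49 * L / 100) * Real.exp (L / 2) := by
              gcongr
      have h12 : Real.exp (L / 100) + (1 + |(k : ℝ)|) ≤ Real.exp (L / 100) * (2 + |(k : ℝ)|) := by
        have h13 : 0 ≤ |(k : ℝ)| := abs_nonneg _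
        nlinarith
      linarith

lemma ev1 (K δ : ℝ) (hδ : 0 < δ) : ∀ᶠ L : ℝ in atTop, K * L ^ 2 * Real.exp (-(L / 4)) ≤ δ := by
  have h1 := Real.tendsto_pow_mul_exp_neg_atTop_nhds_zero 2
  have h2 : Tendsto (fun L : ℝ => L / 4) atTop atTop := tendsto_id.atTop_div_const (by norm_num)
  have h3 := (h1.comp h2).const_mul (16 * K)
  rw [mul_zero] at h3
  have h4 : ∀ᶠ L : ℝ in atTop, 16 * K * (((fun x : ℝ => x ^ 2 * Real.exp (-x)) ∘ fun L => L / 4) L) < δ :=
    h3.eventually (gt_mem_nhds hδ)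
  filter_upwards [h4] with L hL
  simp only [Function.comp] at hL
  have : K * L ^ 2 * Real.exp (-(L / 4)) = 16 * K * ((L / 4) ^ 2 * Real.exp (-(L / 4))) := by ring
  rw [this]
  exact hL.le

/-- the single integral is small -/
lemma int_le {C0 C1 : ℝ} (hC1 : 0 < C1) (hC0 : 0 < C0) {A B S c L : ℝ} (hAB : A < B)
    (hLdef : S * A + c = L) (hL : 200 ≤ L) (hI : ∀ a : ℝ, a ≠ 0 →
    ‖∫ x in A..B, Complex.exp (((2 * π * (a * Real.exp (S * x + c)) : ℝ) : ℂ) * Complex.I)‖ ≤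
    C1 / (|a| * Real.exp (S * A + c))) (hE : C1 * L ^ 2 * Real.exp (-(L / 4)) ≤ B - A)
    (ρ : ℕ → ℝ) (hρ : ∀ d, |ρ d| ≤ 1) (hQ : QF ρ (Dn L) ≤ C0 / Real.log (Dn L)) (τ : ℝ) :
    (∫ x in A..B, SS ρ (Dn L) (Real.exp (S * x + c) + τ)) ≤ (200 * C0 + 1) * (B - A) / L := by
  have h1 := int_SS1 hC1 hI ρ hρ (Dn L) τ
  rw [hLdef] at h1
  have h2 := (abs_le.1 h1).2
  have hL0 : 0 < L := by linarith
  have hlog := log_Dn hL
  have h3 : QF ρ (Dn L) ≤ 200 * C0 / L := by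
    refine hQ.trans ?_
    have h4 : 0 < L / 200 := by positivity
    calc C0 / Real.log (Dn L) ≤ C0 / (L / 200) := div_le_div_of_nonneg_left hC0.le h4 hlog
      _ = 200 * C0 / L := by
          field_simp
  have h5 : C1 * (Dn L : ℝ) ^ 4 / Real.exp L ≤ (B - A) / L := by
    have h6 : (Dn L : ℝ) ^ 4 ≤ Real.exp (L / 25) := by
      have : Real.exp (L / 25) = Real.exp (L / 100) ^ 4 := by
        rw [← Real.exp_nat_mul]
        congr 1
        push_cast
        ring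
      rw [this]
      exact pow_le_pow_left₀ (by positivity) (Dn_le L) 4
    have h7 : C1 * (Dn L : ℝ) ^ 4 / Real.exp L ≤ C1 * Real.exp (-(L / 4)) := by
      rw [div_le_iff₀ (Real.exp_pos _), mul_assoc, ← Real.exp_add]
      refine mul_le_mul_of_nonneg_left (h6.trans ?_) hC1.le
      apply Real.exp_le_exp.2
      linarith
    refine h7.trans ?_
    rw [le_div_iff₀ hL0]
    refine le_trans ?_ hE
    have h8 : L ≤ L ^ 2 := by nlinarith
    have h9 : 0 < C1 * Real.exp (-(L / 4)) := by positivity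
    nlinarith
  have h10 : (B - A) * QF ρ (Dn L) ≤ (B - A) * (200 * C0 / L) :=
    mul_le_mul_of_nonneg_left h3 (by linarith)
  have h11 : (200 * C0 + 1) * (B - A) / L = (B - A) * (200 * C0 / L) + (B - A) / L := by ring
  rw [h11]
  linarith

lemma adm_ev {s c : ℕ → ℝ} {A B : ℝ} (h : Adm s c A B) (P : ℝ → Prop) (hP : ∀ᶠ L in atTop, P L) :
    ∃ n₀ : ℕ, (∀ n, n₀ ≤ n → P (Lg s c n A) ∧ 1 ≤ s n) ∧
      ∀ n m, n₀ ≤ n → n < m → s n + 1 ≤ s m ∧ Lg s c n A ≤ Lg s c m A := by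
  obtain ⟨n1, hn1⟩ := h.ev
  obtain ⟨n2, hn2⟩ := eventually_atTop.1 (h.top.eventually hP)
  refine ⟨max n1 n2, fun n hn => ⟨hn2 n ((le_max_right _ _).trans hn), (hn1 n ((le_max_left _ _).trans hn)).1⟩,
    fun n m hn hm => ?_⟩
  have hn' : n1 ≤ n := (le_max_left _ _).trans hn
  induction m, hm using Nat.le_induction with
  | base => exact ⟨(hn1 n hn').2.1, (hn1 n hn').2.2.1⟩
  | succ m hm ih =>
    have h1 := hn1 m (by omega)
    exact ⟨by linarith [ih.1, h1.2.1], ih.2.trans h1.2.2.1⟩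

theorem t_UP1 (hS : S_SEL) (hM : S_MAJ) (hI : S_INT1) : S_UP1 := by
  obtain ⟨C0, hC0, hS⟩ := hS
  obtain ⟨C1, hC1, hI⟩ := hI
  refine ⟨5 / 2 * (200 * C0 + 1), by positivity, fun s c A B k hadm => ?_⟩
  have hAB := hadm.lt
  have hev : ∀ᶠ L : ℝ in atTop, 200 ≤ L ∧ 2 + |(k : ℝ)| ≤ Real.exp (L / 2) ∧
      C1 * L ^ 2 * Real.exp (-(L / 4)) ≤ B - A := by
    have h1 : Tendsto (fun L : ℝ => Real.exp (L / 2)) atTop atTop :=
      Real.tendsto_exp_atTop.comp (tendsto_id.atTop_div_const (by norm_num))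
    exact (eventually_ge_atTop 200).and ((h1.eventually (eventually_ge_atTop _)).and
      (ev1 C1 (B - A) (by linarith)))
  obtain ⟨n₀, h0, -⟩ := adm_ev hadm _ hev
  refine ⟨n₀, fun n hn => ?_⟩
  obtain ⟨⟨hL, hk, hE⟩, hs⟩ := h0 n hn
  obtain ⟨ρ, hρ1, hρ, hQ0, hQ⟩ := hS (Dn (Lg s c n A)) (Dn_two hL)
  have h1 := markov (fun x => SS ρ (Dn (Lg s c n A)) (Real.exp (s n * x + c n) + ((k : ℝ) - 1 / 2)))
    ((SS_cont _ _).comp (by fun_prop)) (fun x => (hM _ ρ (by have := Dn_two hL; omega) hρ1).1 _)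
    (EE s c k n) hAB.le (2 / 5) (fun x hx => pt hM s c A B k n (by linarith) hL hk ρ hρ1 x hx) (by norm_num)
  have h2 := int_le (c := c n) hC1 hC0 hAB rfl hL (fun a ha => hI A B (s n) (c n) a hAB hs ha) hE ρ hρ hQ
    ((k : ℝ) - 1 / 2)
  have h3 := h1.trans h2
  have h4 : 5 / 2 * (200 * C0 + 1) * (B - A) / Lg s c n A =
      5 / 2 * ((200 * C0 + 1) * (B - A) / (s n * A + c n)) := by
    unfold Lg
    ring
  rw [h4]
  linarith

theorem t_UP2 (hS : S_SEL) (hM : S_MAJ) (hI : S_INT1) (hJ : S_INT2) : S_UP2 := by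
  obtain ⟨C0, hC0, hS⟩ := hS
  obtain ⟨C1, hC1, hI⟩ := hI
  set K := 200 * C0 + 1 with hK
  refine ⟨25 / 4 * (K ^ 2 + 1), by positivity, fun s c A B k hadm => ?_⟩
  have hAB := hadm.lt
  obtain ⟨C2, hC2, hJ⟩ := hJ A B hAB
  have hev : ∀ᶠ L : ℝ in atTop, 200 ≤ L ∧ 2 + |(k : ℝ)| ≤ Real.exp (L / 2) ∧
      C1 * L ^ 2 * Real.exp (-(L / 4)) ≤ B - A ∧ C2 * L ^ 2 * Real.exp (-(L / 4)) ≤ B - A := by
    have h1 : Tendsto (fun L : ℝ => Real.exp (L / 2)) atTop atTop :=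
      Real.tendsto_exp_atTop.comp (tendsto_id.atTop_div_const (by norm_num))
    exact (eventually_ge_atTop 200).and ((h1.eventually (eventually_ge_atTop _)).and
      ((ev1 C1 (B - A) (by linarith)).and (ev1 C2 (B - A) (by linarith))))
  obtain ⟨n₀, h0, h00⟩ := adm_ev hadm _ hev
  refine ⟨n₀, fun n m hn hm => ?_⟩
  obtain ⟨⟨hL, hk, hE, hE'⟩, hs⟩ := h0 n hn
  obtain ⟨⟨hLm, hkm, hEm, hEm'⟩, hsm⟩ := h0 m (by omega)
  obtain ⟨hst, hLL⟩ := h00 n m hn hm
  obtain ⟨ρ, hρ1, hρ, hQ0, hQ⟩ := hS (Dn (Lg s c n A)) (Dn_two hL)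
  obtain ⟨σ, hσ1, hσ, hR0, hR⟩ := hS (Dn (Lg s c m A)) (Dn_two hLm)
  have hn1 : ∀ x, 0 ≤ SS ρ (Dn (Lg s c n A)) x := (hM _ ρ (by have := Dn_two hL; omega) hρ1).1
  have hn2 : ∀ x, 0 ≤ SS σ (Dn (Lg s c m A)) x := (hM _ σ (by have := Dn_two hLm; omega) hσ1).1
  set τ : ℝ := (k : ℝ) - 1 / 2 with hτ
  have h1 := markov (fun x => SS ρ (Dn (Lg s c n A)) (Real.exp (s n * x + c n) + τ) *
      SS σ (Dn (Lg s c m A)) (Real.exp (s m * x + c m) + τ))
    (((SS_cont _ _).comp (by fun_prop)).mul ((SS_cont _ _).comp (by fun_prop)))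
    (fun x => mul_nonneg (hn1 _) (hn2 _))
    (EE s c k n ∩ EE s c k m) hAB.le (4 / 25) (fun x hx => by
      have e1 := pt hM s c A B k n (by linarith) hL hk ρ hρ1 x ⟨hx.1.1, hx.2⟩
      have e2 := pt hM s c A B k m (by linarith) hLm hkm σ hσ1 x ⟨hx.1.2, hx.2⟩
      show (4 : ℝ) / 25 ≤ SS ρ (Dn (Lg s c n A)) (Real.exp (s n * x + c n) + τ) *
        SS σ (Dn (Lg s c m A)) (Real.exp (s m * x + c m) + τ)
      calc (4 : ℝ) / 25 = 2 / 5 * (2 / 5) := by norm_num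
        _ ≤ _ := mul_le_mul e1 e2 (by norm_num) (hn1 _)) (by norm_num)
  have h2 := int_le (c := c n) hC1 hC0 hAB rfl hL (fun a ha => hI A B (s n) (c n) a hAB hs ha) hE ρ hρ hQ τ
  have h3 := int_SS2 (c := c n) (d := c m) hC2 (fun a b hb => hJ (s n) (s m) (c n) (c m) a b hs hst hb)
    ρ σ hρ hσ (Dn (Lg s c n A)) (Dn (Lg s c m A)) τ
  have h4 := (abs_le.1 h3).2
  have hLn0 : 0 < Lg s c n A := by linarith
  have hLm0 : 0 < Lg s c m A := by linarith
  have hlog := log_Dn hLm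
  have hW : QF σ (Dn (Lg s c m A)) ≤ K / Lg s c m A := by
    have h5 : 0 < Lg s c m A / 200 := by positivity
    calc QF σ (Dn (Lg s c m A)) ≤ C0 / Real.log (Dn (Lg s c m A)) := hR
      _ ≤ C0 / (Lg s c m A / 200) := div_le_div_of_nonneg_left hC0.le h5 hlog
      _ = 200 * C0 / Lg s c m A := by field_simp
      _ ≤ K / Lg s c m A := div_le_div_of_nonneg_right (by rw [hK]; linarith) hLm0.le
  have hI0 : 0 ≤ ∫ x in A..B, SS ρ (Dn (Lg s c n A)) (Real.exp (s n * x + c n) + τ) :=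
    intervalIntegral.integral_nonneg hAB.le fun x _ => hn1 _
  have h6 : QF σ (Dn (Lg s c m A)) * (∫ x in A..B, SS ρ (Dn (Lg s c n A)) (Real.exp (s n * x + c n) + τ)) ≤
      K / Lg s c m A * (K * (B - A) / Lg s c n A) := by
    refine mul_le_mul hW ?_ hI0 (by positivity)
    exact h2
  have h7 : C2 * (Dn (Lg s c n A) : ℝ) ^ 2 * (Dn (Lg s c m A) : ℝ) ^ 3 / √(Real.exp (s m * A + c m)) ≤
      (B - A) / (Lg s c n A * Lg s c m A) := by
    have e0 : Real.exp (s m * A + c m) = Real.exp (Lg s c m A) := rfl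
    have e1 : √(Real.exp (Lg s c m A)) = Real.exp (Lg s c m A / 2) := by
      rw [Real.exp_half]
    have e2 : (Dn (Lg s c n A) : ℝ) ≤ Real.exp (Lg s c m A / 100) :=
      (Dn_le _).trans (Real.exp_le_exp.2 (by linarith))
    have e3 : (Dn (Lg s c n A) : ℝ) ^ 2 * (Dn (Lg s c m A) : ℝ) ^ 3 ≤ Real.exp (Lg s c m A / 20) := by
      have : Real.exp (Lg s c m A / 20) = Real.exp (Lg s c m A / 100) ^ 2 * Real.exp (Lg s c m A / 100) ^ 3 := by
        rw [← pow_add, ← Real.exp_nat_mul]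
        congr 1
        push_cast
        ring
      rw [this]
      exact mul_le_mul (pow_le_pow_left₀ (by positivity) e2 2)
        (pow_le_pow_left₀ (by positivity) (Dn_le _) 3) (by positivity) (by positivity)
    rw [e0, e1]
    have e4 : C2 * (Dn (Lg s c n A) : ℝ) ^ 2 * (Dn (Lg s c m A) : ℝ) ^ 3 / Real.exp (Lg s c m A / 2) ≤
        C2 * Real.exp (-(Lg s c m A / 4)) := by
      rw [div_le_iff₀ (Real.exp_pos _), mul_assoc, mul_assoc, ← Real.exp_add]
      refine mul_le_mul_of_nonneg_left (e3.trans ?_) hC2.le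
      apply Real.exp_le_exp.2
      linarith
    refine e4.trans ?_
    rw [le_div_iff₀ (by positivity)]
    refine le_trans ?_ hEm'
    have e5 : Lg s c n A * Lg s c m A ≤ Lg s c m A ^ 2 := by
      rw [sq]
      exact mul_le_mul_of_nonneg_right hLL hLm0.le
    have e6 : 0 < C2 * Real.exp (-(Lg s c m A / 4)) := by positivity
    calc C2 * Real.exp (-(Lg s c m A / 4)) * (Lg s c n A * Lg s c m A) ≤
          C2 * Real.exp (-(Lg s c m A / 4)) * Lg s c m A ^ 2 := mul_le_mul_of_nonneg_left e5 e6.le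
      _ = C2 * Lg s c m A ^ 2 * Real.exp (-(Lg s c m A / 4)) := by ring
  have h8 : 4 / 25 * volume.real (EE s c k n ∩ EE s c k m ∩ Set.Icc A B) ≤
      K / Lg s c m A * (K * (B - A) / Lg s c n A) + (B - A) / (Lg s c n A * Lg s c m A) := by
    linarith
  have h9 : K / Lg s c m A * (K * (B - A) / Lg s c n A) + (B - A) / (Lg s c n A * Lg s c m A) =
      (K ^ 2 + 1) * (B - A) / (Lg s c n A * Lg s c m A) := by
    field_simp
  rw [h9] at h8
  have h10 : 25 / 4 * (K ^ 2 + 1) * (B - A) / (Lg s c n A * Lg s c m A) =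
      25 / 4 * ((K ^ 2 + 1) * (B - A) / (Lg s c n A * Lg s c m A)) := by ring
  rw [h10]
  linarith

end Pool.Agent.Helper2.NNP
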