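import Pool.Agent.Helper2.NNP.Fin

/-!
# The zero-one law for `n α^n`
-/

set_option autoImplicit false

open MeasureTheory Filter Topology Finset
open scoped Real

namespace Pool.Agent.Helper2.NNP.Wood

open Pool.Agent.Helper2.NNP

/-- general weights restricted to `S` -/
noncomputable def wg (v : ℕ → ℝ) (S : Set ℕ) (n : ℕ) : ℝ := S.indicator v n

/-- the data are admissible around all `u > a`, and the logarithms have the size of `1 / v` -/
def LocV (s c v : ℕ → ℝ) (a : ℝ) : Prop := ∀ u : ℝ, a < u → ∃ r₀ : ℝ, 0 < r₀ ∧ ∀ r : ℝ, 0 < r → r < r₀ →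
  Adm s c (u - r) (u + r) ∧ ∃ c₁ c₂ : ℝ, 0 < c₁ ∧ 0 < c₂ ∧ ∀ᶠ n : ℕ in atTop,
    c₁ * v n ≤ 1 / Lg s c n (u - r) ∧ 1 / Lg s c n (u - r) ≤ c₂ * v n

lemma wg_nonneg {v : ℕ → ℝ} (hv : ∀ n, 0 ≤ v n) (S : Set ℕ) (n : ℕ) : 0 ≤ wg v S n :=
  Set.indicator_nonneg (fun n _ => hv n) n

lemma div_part {s c v : ℕ → ℝ} {a : ℝ} (hv : ∀ n, 0 ≤ v n) (hL : LocV s c v a) (k : ℤ) (S : Set ℕ)
    (hS : ¬ Summable (wg v S)) :
    ∀ᵐ x : ℝ, a < x → {n : ℕ | n ∈ S ∧ x ∈ EE s c k n}.Infinite := by
  obtain ⟨C1, hC1, h1⟩ := up1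
  obtain ⟨C2, hC2, h2⟩ := up2
  obtain ⟨C3, hC3, h3⟩ := Helper40W.NNP.t_LOW
  have key := Helper61A.NNP.t_KS (fun n => {x | n ∈ S ∧ x ∈ EE s c k n}) a
    (fun u r n => S.indicator (fun n : ℕ => 1 / Lg s c n (u - r)) n) C3 (max C1 C2) hC3
    (lt_max_of_lt_left hC1) (meas_sub S s c k) ?_
  · filter_upwards [key] with x hx hax
    have := hx hax
    rw [Nat.frequently_atTop_iff_infinite] at this
    exact this
  · intro u hu
    obtain ⟨r₀, hr₀, hr⟩ := hL u hu
    refine ⟨r₀, hr₀, fun r hr0 hr1 => ?_⟩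
    obtain ⟨hadm, c₁, c₂, hc₁, hc₂, hcmp⟩ := hr r hr0 hr1
    have h2r : (u + r) - (u - r) = 2 * r := by ring
    constructor
    · intro hsum
      apply hS
      refine summable_of_isBigO_nat hsum ?_
      refine Asymptotics.IsBigO.of_bound c₁⁻¹ ?_
      filter_upwards [hcmp, hadm.top.eventually_ge_atTop 1] with n hn hn1
      unfold wg
      by_cases hnS : n ∈ S
      · rw [Set.indicator_of_mem hnS, Set.indicator_of_mem hnS]
        rw [Real.norm_of_nonneg (hv n), Real.norm_of_nonneg (by positivity)]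
        rw [inv_mul_eq_div, le_div_iff₀ hc₁]
        linarith [hn.1]
      · rw [Set.indicator_of_notMem hnS, Set.indicator_of_notMem hnS]
        simp
    · obtain ⟨n1, hn1⟩ := h1 s c (u - r) (u + r) k hadm
      obtain ⟨n2, hn2⟩ := h2 s c (u - r) (u + r) k hadm
      obtain ⟨n3, hn3⟩ := h3 s c (u - r) (u + r) k hadm
      obtain ⟨n4, hn4⟩ := eventually_atTop.1 (hadm.top.eventually_ge_atTop 1)
      refine ⟨max (max n1 n2) (max n3 n4), ?_, ?_⟩
      · intro n hn
        have g1 := hn1 n (by omega)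
        have g3 := hn3 n (by omega)
        have g4 : 1 ≤ Lg s c n (u - r) := hn4 n (by omega)
        rw [h2r] at g1 g3
        have g5 : 0 ≤ 1 / Lg s c n (u - r) := by positivity
        by_cases hnS : n ∈ S
        · simp only [Set.indicator_of_mem hnS, hnS, true_and, Set.ofPred_mem_eq]
          refine ⟨g5, ?_, ?_⟩
          · rw [mul_one_div]
            exact g3
          · refine g1.trans ?_
            rw [mul_one_div]
            refine div_le_div_of_nonneg_right ?_ (by linarith)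
            exact mul_le_mul_of_nonneg_right (le_max_left _ _) (by linarith)
        · simp [hnS]
      · intro n m hn hm
        have g2 := hn2 n m (by omega) hm
        have g4 : 1 ≤ Lg s c n (u - r) := hn4 n (by omega)
        have g4' : 1 ≤ Lg s c m (u - r) := hn4 m (by omega)
        rw [h2r] at g2
        by_cases hnS : n ∈ S
        · by_cases hmS : m ∈ S
          · simp only [Set.indicator_of_mem hnS, Set.indicator_of_mem hmS, hnS, hmS, true_and,
              Set.ofPred_mem_eq]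
            refine g2.trans ?_
            rw [one_div_mul_one_div, mul_one_div]
            refine div_le_div_of_nonneg_right ?_ (by positivity)
            exact mul_le_mul_of_nonneg_right (le_max_right _ _) (by linarith)
          · simp [hmS]
        · simp [hnS]

lemma conv_part {s c v : ℕ → ℝ} {a : ℝ} (hv : ∀ n, 0 ≤ v n) (hL : LocV s c v a) (k : ℤ) (S : Set ℕ)
    (hS : Summable (wg v S)) :
    ∀ᵐ x : ℝ, a < x → {n : ℕ | n ∈ S ∧ x ∈ EE s c k n}.Finite := by
  obtain ⟨C1, hC1, h1⟩ := up1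
  rw [ae_iff]
  refine measure_null_of_locally_null _ fun u hu => ?_
  simp only [Set.mem_ofPred_eq, Classical.not_imp] at hu
  obtain ⟨hau, -⟩ := hu
  obtain ⟨r₀, hr₀, hr⟩ := hL u hau
  obtain ⟨hadm, c₁, c₂, hc₁, hc₂, hcmp⟩ := hr (r₀ / 2) (by linarith) (by linarith)
  set r := r₀ / 2 with hrdef
  have hr0 : 0 < r := by linarith
  obtain ⟨n1, hn1⟩ := h1 s c (u - r) (u + r) k hadm
  have hsum : Summable (fun n : ℕ => volume.real ({x | n ∈ S ∧ x ∈ EE s c k n} ∩ Set.Icc (u - r) (u + r))) := by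
    refine summable_of_isBigO_nat hS ?_
    refine Asymptotics.IsBigO.of_bound (C1 * (2 * r) * c₂) ?_
    filter_upwards [hcmp, hadm.top.eventually_ge_atTop 1, eventually_ge_atTop n1] with n hn hn1' hnn
    rw [Real.norm_of_nonneg measureReal_nonneg, Real.norm_of_nonneg (wg_nonneg hv S n)]
    unfold wg
    by_cases hnS : n ∈ S
    · rw [Set.indicator_of_mem hnS]
      simp only [hnS, true_and, Set.ofPred_mem_eq]
      refine (hn1 n hnn).trans ?_
      have h2r : (u + r) - (u - r) = 2 * r := by ring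
      rw [h2r]
      calc C1 * (2 * r) / Lg s c n (u - r) = C1 * (2 * r) * (1 / Lg s c n (u - r)) := by ring
        _ ≤ C1 * (2 * r) * (c₂ * v n) := mul_le_mul_of_nonneg_left hn.2 (by positivity)
        _ = C1 * (2 * r) * c₂ * v n := by ring
    · rw [Set.indicator_of_notMem hnS]
      simp [hnS]
  have hfin : ∀ n : ℕ, volume ({x | n ∈ S ∧ x ∈ EE s c k n} ∩ Set.Icc (u - r) (u + r)) ≠ ⊤ := fun n =>
    ((measure_mono Set.inter_subset_right).trans_lt measure_Icc_lt_top).ne
  have hsum' : ∑' n : ℕ, (volume.restrict (Set.Icc (u - r) (u + r))) {x | n ∈ S ∧ x ∈ EE s c k n} ≠ ⊤ := by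
    have e1 : ∀ n : ℕ, (volume.restrict (Set.Icc (u - r) (u + r))) {x | n ∈ S ∧ x ∈ EE s c k n} =
        ENNReal.ofReal (volume.real ({x | n ∈ S ∧ x ∈ EE s c k n} ∩ Set.Icc (u - r) (u + r))) := by
      intro n
      rw [Measure.restrict_apply (meas_sub S s c k n), ofReal_measureReal (hfin n)]
    simp only [e1]
    exact hsum.tsum_ofReal_ne_top
  have hae := ae_finite_setOfPred_mem hsum'
  rw [ae_restrict_iff' measurableSet_Icc, ae_iff] at hae
  refine ⟨{x | ¬ (a < x → {n : ℕ | n ∈ S ∧ x ∈ EE s c k n}.Finite)} ∩ Set.Icc (u - r) (u + r), ?_, ?_⟩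
  · refine inter_mem_nhdsWithin _ (Icc_mem_nhds (by linarith) (by linarith))
  · refine measure_mono_null ?_ hae
    intro x hx
    simp only [Set.mem_inter_iff, Set.mem_ofPred_eq, Classical.not_imp] at hx ⊢
    exact ⟨hx.2, hx.1.2⟩

lemma law {s c v : ℕ → ℝ} {a : ℝ} (hv : ∀ n, 0 ≤ v n) (hL : LocV s c v a) (S : Set ℕ) :
    ∀ᵐ x : ℝ, a < x → ∀ k : ℤ, ({n : ℕ | n ∈ S ∧ x ∈ EE s c k n}.Infinite ↔ ¬ Summable (wg v S)) := by
  have h : ∀ k : ℤ, ∀ᵐ x : ℝ, a < x → ({n : ℕ | n ∈ S ∧ x ∈ EE s c k n}.Infinite ↔ ¬ Summable (wg v S)) := by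
    intro k
    by_cases hS : Summable (wg v S)
    · filter_upwards [conv_part hv hL k S hS] with x hx hax
      have := hx hax
      exact ⟨fun h => absurd this h, fun h => absurd hS h⟩
    · filter_upwards [div_part hv hL k S hS] with x hx hax
      exact ⟨fun _ => hS, fun _ => hx hax⟩
  have h2 := ae_all_iff.2 h
  filter_upwards [h2] with x hx hax k
  exact hx k hax

lemma locW : LocV (fun n => n) (fun n => Real.log n) (fun n => 1 / (n : ℝ)) 0 := by
  intro u hu
  refine ⟨u / 3, by linarith, fun r hr0 hr1 => ?_⟩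
  have hA : 0 < u - r := by linarith
  refine ⟨⟨by linarith, ⟨1, fun n hn => ?_⟩, ?_⟩, 1 / (u - r + 1), 1 / (u - r), by positivity, by positivity, ?_⟩
  · have hn1 : (1 : ℝ) ≤ n := by exact_mod_cast hn
    have hl : 0 ≤ Real.log n := Real.log_natCast_nonneg n
    have hl2 : Real.log n ≤ Real.log ((n + 1 : ℕ) : ℝ) := Real.log_le_log (by linarith) (by push_cast; linarith)
    refine ⟨hn1, by push_cast; linarith, ?_, ?_⟩
    · unfold Lg
      push_cast at hl2 ⊢
      nlinarith
    · unfold Lg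
      nlinarith
  · unfold Lg
    refine tendsto_atTop_mono (fun n => ?_) (tendsto_natCast_atTop_atTop.atTop_mul_const hA)
    have hl : 0 ≤ Real.log n := Real.log_natCast_nonneg n
    linarith
  · filter_upwards [eventually_ge_atTop 1] with n hn
    have hn1 : (1 : ℝ) ≤ n := by exact_mod_cast hn
    have hl : 0 ≤ Real.log n := Real.log_natCast_nonneg n
    have hl2 : Real.log n ≤ n := (Real.log_le_sub_one_of_pos (by linarith)).trans (by linarith)
    unfold Lg
    have hp : 0 < (n : ℝ) * (u - r) + Real.log n := by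
      have : 0 < (n : ℝ) * (u - r) := by positivity
      linarith
    constructor
    · rw [one_div_mul_one_div, div_le_div_iff₀ (by positivity) hp]
      nlinarith
    · rw [one_div_mul_one_div, div_le_div_iff₀ hp (by positivity)]
      nlinarith

lemma exp_ae' {P : ℝ → Prop} (h : ∀ᵐ x : ℝ, 0 < x → P x) : ∀ᵐ α : ℝ, 1 < α → P (Real.log α) := by
  filter_upwards [exp_ae h] with α hα h1
  exact hα (by linarith) (Real.log_pos h1)

theorem main (S : Set ℕ) : ∀ᵐ α : ℝ, 1 < α → ∀ k : ℤ,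
    ({n : ℕ | n ∈ S ∧ (⌊(n : ℝ) * α ^ n⌋ + k).toNat.Prime}.Infinite ↔
      ¬ Summable (S.indicator fun n : ℕ => 1 / (n : ℝ))) := by
  filter_upwards [exp_ae' (law (fun n => by positivity) locW S)] with α hα h1 k
  have h := hα h1 k
  have e : {n : ℕ | n ∈ S ∧ (⌊(n : ℝ) * α ^ n⌋ + k).toNat.Prime}.Infinite ↔
      {n : ℕ | n ∈ S ∧ Real.log α ∈ EE (fun n => n) (fun n => Real.log n) k n}.Infinite := by
    rw [← Nat.frequently_atTop_iff_infinite, ← Nat.frequently_atTop_iff_infinite]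
    refine frequently_congr ?_
    filter_upwards [eventually_ge_atTop 1] with n hn
    have hn1 : (0 : ℝ) < n := by exact_mod_cast hn
    show (n ∈ S ∧ (⌊(n : ℝ) * α ^ n⌋ + k).toNat.Prime) ↔
      (n ∈ S ∧ (⌊fn (fun n => (n : ℝ)) (fun n => Real.log n) n (Real.log α)⌋ + k).toNat.Prime)
    have e2 : fn (fun n => (n : ℝ)) (fun n => Real.log n) n (Real.log α) = (n : ℝ) * α ^ n := by
      unfold fn Lg
      rw [Real.exp_add, Real.exp_nat_mul, Real.exp_log (by linarith), Real.exp_log hn1, mul_comm]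
    rw [e2]
  rw [e]
  exact h

end Pool.Agent.Helper2.NNP.Wood
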